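import Pool.Agent.W619.PQ.Genus

/-!
Places of a function field of one variable from ideals of subrings.
-/

set_option autoImplicit false
set_option linter.overlappingInstances false
set_option linter.unusedSectionVars false
set_option maxHeartbeats 4000000
set_option synthInstance.maxHeartbeats 400000

open Polynomial FF IsDedekindDomain IntermediateField

namespace Pool.Agent.K4H25.PC

open Pool.Agent.W603.LV

section

variable {k F : Type*} [Field k] [Field F] [Algebra k F] [CharZero k] [IsFF k F]

/-- There is a place at which the functions of an ideal of a subring vanish. -/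
theorem exists_place_ideal (A0 : Subring F) (hk : ∀ c : k, algebraMap k F c ∈ A0) (I : Ideal A0)
    (hI : I ≠ ⊤) {x : A0} (hx : x ∈ I) (hxt : Transcendental k (x : F)) :
    ∃ P : Place k F, ∀ b ∈ I, Ge P 1 (b : F) := by
  classical
  obtain ⟨V, hAV, hIV⟩ := Ideal.image_subset_nonunits_valuationSubring I hI
  obtain ⟨f, hf⟩ : ∃ f : F, f = x := ⟨_, rfl⟩
  rw [← hf] at hxt
  open scoped algebraAdjoinAdjoin in
  let A := Algebra.adjoin k {f}
  let e := Polynomial.algEquivOfTranscendental k f hxt
  have hpid : IsPrincipalIdealRing A := IsPrincipalIdealRing.of_surjective e.toRingEquiv e.surjective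
  have hded : IsDedekindDomain A := inferInstance
  have hfin := IsFF.finite hxt
  have hchar : CharZero k⟮f⟯ := charZero_of_injective_algebraMap (algebraMap k k⟮f⟯).injective
  have hsep : Algebra.IsSeparable k⟮f⟯ F := inferInstance
  let B := integralClosure A F
  have : IsDedekindDomain B := integralClosure.isDedekindDomain A k⟮f⟯ F
  have : IsFractionRing B F := integralClosure.isFractionRing_of_finite_extension k⟮f⟯ F
  have hsc : IsScalarTower k B F := by
    refine IsScalarTower.of_algebraMap_eq fun c => ?_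
    rw [IsScalarTower.algebraMap_apply k A B, ← IsScalarTower.algebraMap_apply A B F,
      ← IsScalarTower.algebraMap_apply k A F]
  have hAV' : ∀ a : A, (a : F) ∈ V := by
    rintro ⟨a, ha⟩
    change a ∈ V
    induction ha using Algebra.adjoin_induction with
    | mem y hy =>
      rw [Set.mem_singleton_iff] at hy
      subst hy
      rw [hf]
      exact hAV x.2
    | algebraMap r => exact hAV (hk r)
    | add y z _ _ hy hz => exact add_mem hy hz
    | mul y z _ _ hy hz => exact mul_mem hy hz
  have hBV : ∀ b : B, (b : F) ∈ V := by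
    intro b
    have hb : IsIntegral A (b : F) := b.2
    let ψ : A →+* V := (algebraMap A F).codRestrict V hAV'
    have hb' : IsIntegral V (b : F) := by
      obtain ⟨p, hp, he⟩ := hb
      refine ⟨p.map ψ, hp.map _, ?_⟩
      rw [Polynomial.eval₂_map]
      exact he
    obtain ⟨y, hy⟩ := (IsIntegrallyClosed.isIntegral_iff (R := V) (K := F)).1 hb'
    rw [← hy]
    exact y.2
  let ρ : B →+* V := (algebraMap B F).codRestrict V hBV
  let p : Ideal B := (IsLocalRing.maximalIdeal V).comap ρ
  have hp : p.IsPrime := Ideal.IsPrime.comap ρ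
  have hmem : ∀ b : B, b ∈ p ↔ (b : F) ∈ V.nonunits := by
    intro b
    rw [ValuationSubring.mem_nonunits_iff_exists_mem_maximalIdeal]
    constructor
    · intro hb
      exact ⟨hBV b, hb⟩
    · rintro ⟨h1, h2⟩
      exact h2
  have hp0 : p ≠ ⊥ := by
    intro h0
    have h1 : (⟨f, Algebra.self_mem_adjoin_singleton k f⟩ : A) ∈ (⊤ : Ideal A) := trivial
    let fB : B := algebraMap A B ⟨f, Algebra.self_mem_adjoin_singleton k f⟩
    have h2 : fB ∈ p := by
      rw [hmem]
      change f ∈ V.nonunits
      rw [hf]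
      exact hIV ⟨x, hx, rfl⟩
    rw [h0, Ideal.mem_bot] at h2
    have h3 : f = 0 := congrArg Subtype.val h2
    rw [h3] at hxt
    exact hxt isAlgebraic_zero
  let Q : HeightOneSpectrum B := ⟨p, hp, hp0⟩
  refine ⟨placeOf (k := k) (L := F) Q, fun b hb => ?_⟩
  by_cases hb0 : (b : F) = 0
  · exact Or.inl hb0
  right
  by_contra hlt
  push Not at hlt
  have h1 : 0 ≤ (placeOf (k := k) (L := F) Q).ord (b : F)⁻¹ := by
    rw [Place.ord_inv]
    omega
  rw [placeOf_nonneg _ (inv_ne_zero hb0)] at h1
  obtain ⟨n, d, hnd⟩ := HeightOneSpectrum.exists_primeCompl_mul_eq_of_integer _ _ h1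
  have hd1 : ¬ ((d : B) : F) ∈ V.nonunits := fun h => d.2 ((hmem _).2 h)
  have hdV := hBV (d : B)
  have hd2 : (((d : B) : F))⁻¹ ∈ V := by
    rw [ValuationSubring.mem_nonunits_iff_exists_mem_maximalIdeal] at hd1
    push Not at hd1
    have h2 := hd1 hdV
    rw [IsLocalRing.mem_maximalIdeal, mem_nonunits_iff, not_not] at h2
    obtain ⟨v, hv⟩ := h2.exists_right_inv
    have h3 : ((d : B) : F) * (v : F) = 1 := congrArg Subtype.val hv
    rw [← eq_inv_of_mul_eq_one_right h3]
    exact v.2
  have hd0 : ((d : B) : F) ≠ 0 := by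
    intro h
    refine d.2 ((hmem _).2 ?_)
    rw [h, ValuationSubring.mem_nonunits_iff, map_zero]
    exact zero_lt_one
  have h4 : (b : F)⁻¹ ∈ V := by
    have h5 : (b : F)⁻¹ = ((n : B) : F) * (((d : B) : F))⁻¹ := by
      rw [eq_mul_inv_iff_mul_eq₀ hd0]
      exact hnd
    rw [h5]
    exact mul_mem (hBV n) hd2
  have h6 : (b : F) ∈ V.nonunits := hIV ⟨b, hb, rfl⟩
  rw [ValuationSubring.mem_nonunits_iff_exists_mem_maximalIdeal] at h6
  obtain ⟨h7, h8⟩ := h6
  rw [IsLocalRing.mem_maximalIdeal, mem_nonunits_iff] at h8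
  apply h8
  refine IsUnit.of_mul_eq_one ⟨(b : F)⁻¹, h4⟩ ?_
  apply Subtype.ext
  exact mul_inv_cancel₀ hb0

end

end Pool.Agent.K4H25.PC
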