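import Pool.Agent.K4H25.PC.Main
import Pool.Agent.K4H25.PC.PrdSpan
import Pool.Agent.K4H25.AB.Main

/-!
Images of products of curves.
-/

set_option autoImplicit false
set_option linter.overlappingInstances false
set_option linter.unusedSectionVars false
set_option maxHeartbeats 4000000
set_option synthInstance.maxHeartbeats 400000

open FF Module Pool.Agent Pool.Agent.W602.GT Pool.Agent.R885
open Pool.Agent.W603.LV (vo vo_eq Ge)
open Pool.Agent.R882.LT (TraceNe)
open Pool.Agent.R882.GL (SpanFib)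
open Pool.Agent.W619.PQ (IsUniruled)
open Pool.Agent.W619.TW (MM le_MM cur_MM)

namespace Pool.Agent.K4H25.PC

open Pool.Agent.K4H25.MG

section

variable {K : Type} [Field K] [Algebra ℂ K] {n : ℕ}

/-- Multiplication by a function on the base. -/
theorem span_smul {B : IntermediateField ℂ K} {J : Type}
    {ω : J → (Fin (n + 1) → Derivation ℂ K K) → K} (h : SpanFib B ω) {c : K} (hc : c ∈ B)
    (hc0 : c ≠ 0) : SpanFib B (fun j D => c * ω j D) := by
  intro Λ F _ _ _ _ _ _ _ φ hFF hgen hBΛ htr t ξ htB hbasis E hE D hD hreg f hf0 hf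
  obtain ⟨a, ha⟩ := hBΛ c hc
  have hφc : φ c ≠ 0 := (_root_.map_ne_zero φ).2 hc0
  have ha0 : a ≠ 0 := by
    rintro rfl
    rw [map_zero] at ha
    exact hφc ha.symm
  have h1 := h Λ F φ hFF hgen hBΛ htr t ξ htB hbasis E hE D hD (fun j Q => by
    rcases hreg j Q with h2 | h2
    · left
      rw [map_mul] at h2
      exact (mul_eq_zero.1 h2).resolve_left hφc
    · by_cases h3 : φ (ω j E) = 0
      · exact Or.inl h3
      · right
        rw [map_mul, Q.ord_mul hφc h3, ← ha, Q.ord_const ha0, zero_add] at h2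
        exact h2) f hf0 hf
  refine Submodule.span_le.2 ?_ h1
  rintro _ ⟨j, rfl⟩
  have h2 : φ (ω j E) = a⁻¹ • φ (c * ω j E) := by
    rw [map_mul, ← ha, ← Algebra.smul_def, smul_smul, inv_mul_cancel₀ ha0, one_smul]
  change φ (ω j E) ∈ _
  rw [h2]
  exact Submodule.smul_mem _ _ (Submodule.subset_span ⟨j, rfl⟩)

theorem traceNe_of_mul {ω : (Fin n → Derivation ℂ K K) → K} {F : IntermediateField ℂ K} {c : K}
    (hc : c ∈ F) (h : TraceNe (fun D => c * ω D) F) : TraceNe ω F := by
  obtain ⟨D, D', h1, h2⟩ := h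
  refine ⟨D, D', h1, fun h3 => h2 ?_⟩
  have h4 : c * ω D' = (⟨c, hc⟩ : F) • ω D' := rfl
  change Algebra.trace F K (c * ω D') = 0
  rw [h4, map_smul, h3, smul_zero]

theorem exists_ne_sep {F : Type} [Field F] [Algebra ℂ F] {M m : ℕ} {g : Fin m → F}
    (h : SepFam M Set.univ g) : ∃ a, g a ≠ 0 := by
  by_contra hcon
  push Not at hcon
  have h1 := h F Unit ∅ (fun _ => 1) (fun _ => RingHom.id F) () (fun _ _ _ => rfl) (by simp)
    (by simp) (by simp) (fun a => by simp [hcon a])
  exact one_ne_zero h1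

variable {C : Fin (n + 1) → IntermediateField ℂ K} [∀ p, IsFF ℂ (C p)]

theorem adjoin_eq_MM (C : Fin (n + 1) → IntermediateField ℂ K) :
    IntermediateField.adjoin ℂ {z | ∃ p : Fin n, z ∈ C p.succ} = MM C 0 := by
  apply le_antisymm
  · rw [IntermediateField.adjoin_le_iff]
    rintro z ⟨p, hz⟩
    exact le_MM C (Fin.succ_ne_zero p) hz
  · refine iSup_le fun j => ?_
    obtain ⟨j, hj⟩ := j
    obtain ⟨p, rfl⟩ := Fin.exists_succ_eq.2 hj
    intro z hz
    exact IntermediateField.subset_adjoin ℂ _ ⟨p, hz⟩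

/-- **Images of products of curves.** -/
theorem main_prod (hsup : ⨆ p, C p = ⊤) (hn : Algebra.trdeg ℂ K = (n + 1 : ℕ)) {M : Fin n → ℕ}
    (hgon : ∀ (p : Fin n) (b : C p.succ), Transcendental ℂ b →
      M p + 1 < finrank (IntermediateField.adjoin ℂ {b}) (C p.succ))
    (L : Type) [Field L] [Algebra ℂ L] [Algebra L K] [IsScalarTower ℂ L K]
    [FiniteDimensional L K]
    (hm : ∀ Λ : Finset (Fin n), Λ.Nonempty →
      cdeg L (fun p : Fin n => C p.succ) Λ ≤ ∑ b ∈ Λ, M b + 1) :
    [∀ ω : (Fin (n + 1) → Derivation ℂ L L) → L, IsPluri 1 ω →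
      (∀ P : Place ℂ L, Divisorial (n + 1) P → RegAt P ω) → ∀ D, ω D = 0,
      ¬ KodGe ℂ L (n + 1) (fun _ => False) 0,
      ¬ Psef ℂ L (n + 1) (fun _ => False), IsUniruled ℂ L (n + 1)].TFAE ∧
    ∀ r : ℕ, r ≤ n →
      (∀ Λ : Finset (Fin n), n < r + Λ.card →
        2 * cdeg L (fun p : Fin n => C p.succ) Λ ≤ ∑ b ∈ Λ, M b + 1) →
      IsUniruled ℂ L (n + 1) ∨ KodGe ℂ L (n + 1) (fun _ => False) r := by
  classical
  have hess : Algebra.EssFiniteType ℂ K := by
    obtain ⟨N, β, t, -, hgens⟩ := exists_gens (C := C)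
    have h1 := hgens ∅ ℂ
    have h2 : t '' {j | β j ∉ (∅ : Finset (Fin (n + 1)))} = Set.range t := by
      rw [← Set.image_univ]
      congr 1
      ext j
      simp
    have h3 : IntermediateField.adjoin ℂ (Set.range t) = ⊤ := by
      rw [← h2, h1, eq_top_iff, ← hsup]
      refine iSup_le fun p z hz => ?_
      exact IntermediateField.subset_adjoin ℂ _ ⟨p, by simp, hz⟩
    rw [← IntermediateField.fg_top_iff, ← h3]
    exact ⟨Finset.univ.image t, by rw [Finset.coe_image, Finset.coe_univ, Set.image_univ]⟩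
  have hess' : Algebra.EssFiniteType ℂ L := Pool.Agent.TH466.QG.ess_below (K := K)
  have hL : Algebra.trdeg ℂ L = (n + 1 : ℕ) := Pool.Agent.Y184.NT.trdeg_below (K := K) hn
  have hx : ∀ p, ∃ x : C p, Transcendental ℂ x := fun p =>
    IsFF.exists_transcendental (k := ℂ) (K := C p)
  choose x hx using hx
  have hDx : ∀ p, ∃ D : Derivation ℂ (C p) (C p), D (x p) = 1 := by
    intro p
    have h1 := Pool.Agent.W603.LV.der_ne (k := ℂ) (K := C p)
    have h2 := Pool.Agent.W603.LV.der_ne_zero h1 (hx p)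
    refine ⟨(Pool.Agent.W603.LV.der ℂ (C p) (x p))⁻¹ • Pool.Agent.W603.LV.der ℂ (C p), ?_⟩
    rw [Derivation.coe_smul, Pi.smul_apply, smul_eq_mul, inv_mul_cancel₀ h2]
  choose D0 hD0 using hDx
  have hD00 : ∀ p, D0 p ≠ 0 := by
    intro p h
    have h1 := hD0 p
    rw [h] at h1
    simp at h1
  choose m s hs1 hs2 using fun p => exists_reg_fam (F := C p) (hD00 p)
  obtain ⟨ω, hω⟩ : ∃ ω : Fin (m 0) → (Fin (n + 1) → Derivation ℂ K K) → K,
    ω = fun j D => (s 0 j : K) * (Matrix.of fun i l => D i (x l : K)).det := ⟨_, rfl⟩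
  have hpl : ∀ j, IsPluri 1 (ω j) := by
    intro j A D
    have h1 := pluri_det (fun p => (x p : K)) A D
    rw [hω]
    change (s 0 j : K) * (Matrix.of fun i l => (∑ l, A i l • D l) (x l : K)).det = A.det ^ 1 * _
    change (Matrix.of fun i l => (∑ l, A i l • D l) (x l : K)).det = _ at h1
    rw [h1]
    change (s 0 j : K) * (A.det ^ 1 * _) = A.det ^ 1 * ((s 0 j : K) * _)
    ring
  have hreg : ∀ j, ∀ g : ∀ p : Fin n, C p.succ,
      (∀ p, g p = 0 ∨ ∀ Q : Place ℂ (C p.succ), vo Q (D0 p.succ) ≤ Q.ord (g p)) →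
      ∀ P : Place ℂ K, RegAt P (fun D => (∏ p, (g p : K)) * ω j D) := by
    intro j g hg P
    have h1 := reg_prod (E := C) (x := x) hD0 (g := Fin.cons (α := fun p => C p) (s 0 j) g)
      (fun p => by
        refine Fin.cases ?_ (fun p => ?_) p
        · rw [Fin.cons_zero]
          exact hs1 0 j
        · rw [Fin.cons_succ]
          exact hg p) P
    have h2 : (fun D : Fin (n + 1) → Derivation ℂ K K => (∏ p, (g p : K)) * ω j D) =
        fun D => (∏ p, ((Fin.cons (α := fun p => C p) (s 0 j) g : ∀ p, C p) p : K)) *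
          (Matrix.of fun i j => D i (x j : K)).det := by
      funext D
      rw [Fin.prod_univ_succ, Fin.cons_zero, hω]
      simp only [Fin.cons_succ]
      ring
    rw [h2]
    exact h1
  have hspan : SpanFib (MM C 0) ω := by
    rw [hω]
    exact span_prod hsup hn hx (hD0 0) (hs2 0)
  -- one regular function on the base
  have hne : ∀ p : Fin n, ∃ a, s p.succ a ≠ 0 := fun p =>
    exists_ne_sep (sepFam_of_gonality (hgon p) (hD00 p.succ) (hs2 p.succ))
  choose a0 ha0 using hne
  obtain ⟨c, hc⟩ : ∃ c : K, c = ∏ p : Fin n, (s p.succ (a0 p) : K) := ⟨_, rfl⟩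
  have hc0 : c ≠ 0 := by
    rw [hc]
    refine Finset.prod_ne_zero_iff.2 fun p _ h => ha0 p ?_
    exact Subtype.ext h
  have hcB : c ∈ MM C 0 := by
    rw [hc]
    exact prod_mem fun p _ => le_MM C (Fin.succ_ne_zero p) (s p.succ (a0 p)).2
  -- generators of the base
  obtain ⟨N, β, t, -, hgens⟩ := exists_gens (C := fun p : Fin n => C p.succ)
  have hempty : ∀ (L : Type) [Field L] [Algebra ℂ L] [Algebra L K] [IsScalarTower ℂ L K],
      IntermediateField.adjoin L (Set.range t) =
        IntermediateField.adjoin L {z | ∃ p : Fin n, z ∈ C p.succ} := by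
    intro L _ _ _ _
    have h1 := hgens ∅ L
    have h2 : t '' {j | β j ∉ (∅ : Finset (Fin n))} = Set.range t := by
      rw [← Set.image_univ]
      congr 1
      ext j
      simp
    have h3 : {z : K | ∃ p, p ∉ (∅ : Finset (Fin n)) ∧ z ∈ C p.succ} =
        {z | ∃ p : Fin n, z ∈ C p.succ} := by
      ext z
      simp
    rw [h2, h3] at h1
    exact h1
  have hB : IntermediateField.adjoin ℂ (Set.range t) = MM C 0 := by
    rw [hempty ℂ, adjoin_eq_MM]
  have hd : Algebra.trdeg ℂ (IntermediateField.adjoin ℂ (Set.range t)) = (n : ℕ) := by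
    rw [hB]
    exact trdeg_MM hsup hn
  have hcl : ∀ g : K, IsAlgebraic (IntermediateField.adjoin ℂ (Set.range t)) g →
      g ∈ IntermediateField.adjoin ℂ (Set.range t) := by
    rw [hB]
    intro g hg
    exact cur_closed (cur_MM C hsup hn 0) hg
  have huni : (∀ j, ¬ TraceNe (ω j) ((IntermediateField.adjoin L
      {z | ∃ p : Fin n, z ∈ C p.succ}).restrictScalars ℂ)) → IsUniruled ℂ L (n + 1) := by
    intro htr
    refine Pool.Agent.K4H25.AB.uniruled_of (ω := fun j D => c * ω j D) hn hd hcl (fun j A D => ?_)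
      (fun j P _ => ?_) ?_ L fun j h => htr j ?_
    · have h1 := hpl j A D
      change c * ω j _ = _
      rw [h1]
      ring
    · rw [hc]
      exact hreg j (fun p => s p.succ (a0 p)) (fun p => hs1 p.succ (a0 p)) P
    · rw [hB]
      exact span_smul hspan hcB hc0
    · rw [← hempty L]
      refine traceNe_of_mul ?_ h
      have h1 : IntermediateField.adjoin ℂ (Set.range t) ≤
          (IntermediateField.adjoin L (Set.range t)).restrictScalars ℂ := by
        rw [IntermediateField.adjoin_le_iff]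
        exact IntermediateField.subset_adjoin L _
      exact h1 (by rw [hB]; exact hcB)
  have hcore : ∀ j, TraceNe (ω j) ((IntermediateField.adjoin L
      {z | ∃ p : Fin n, z ∈ C p.succ}).restrictScalars ℂ) → _ := fun j htn =>
    main_gen (C := fun p : Fin n => C p.succ) hn (by rw [adjoin_eq_MM]; exact trdeg_MM hsup hn)
      hgon (fun p => hD00 p.succ) (hpl j) (fun g hg P _ => hreg j g hg P) L htn hm
  refine ⟨Pool.Agent.K4H25.AB.tfae_of hL fun hg => huni fun j htr => ?_, fun r hr hk => ?_⟩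
  · obtain ⟨η, hη, hηr, D, hD⟩ := (hcore j htr).1
    exact hD (hg η hη hηr D)
  · by_cases htr : ∃ j, TraceNe (ω j) ((IntermediateField.adjoin L
      {z | ∃ p : Fin n, z ∈ C p.succ}).restrictScalars ℂ)
    · obtain ⟨j, htr⟩ := htr
      exact Or.inr ((hcore j htr).2 r hr hk)
    · push Not at htr
      exact Or.inl (huni htr)

end

end Pool.Agent.K4H25.PC
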