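import Pool.Agent.K4H25.PC.Prod
import Pool.Agent.K4H25.MG.Kod

/-!
Kodaira dimension from traces, for a system of functions which separates points.
-/

set_option autoImplicit false
set_option linter.unusedSectionVars false
set_option linter.overlappingInstances false

open FF Module Pool.Agent Pool.Agent.W602.GT Pool.Agent.W603.LV
open Pool.Agent.R882.LT (SecAt trForm_sec)
open Pool.Agent.Y184.NT (trForm trForm_pluri)
open Pool.Agent.R882.LT (TraceNe secAt_of)

namespace Pool.Agent.K4H25.PC

open Pool.Agent.K4H25.MG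

section

variable {K : Type} [Field K] [Algebra ℂ K] {n N q d : ℕ} {β : Fin N → Fin q} {M : Fin q → ℕ}

/-- reduction to the trace in the coordinates -/
theorem core_red' [Algebra.EssFiniteType ℂ K] (htr : Algebra.trdeg ℂ K = n) {t : Fin N → K}
    {L : Type} [Field L] [Algebra ℂ L] [Algebra L K] [IsScalarTower ℂ L K]
    [FiniteDimensional L K] {ω : (Fin n → Derivation ℂ K K) → K} (hω : IsPluri 1 ω)
    (htn : TraceNe ω ((IntermediateField.adjoin L (Set.range t)).restrictScalars ℂ)) :
    ∃ (x : Fin (N + 1) → K) (y : Fin n → L) (E : Fin n → Derivation ℂ L L)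
      (E' : Fin n → Derivation ℂ K K), x 0 = 1 ∧ (∀ j, x j.succ = t j) ∧
      IntermediateField.adjoin L (Set.range x) = IntermediateField.adjoin L (Set.range t) ∧
      IntermediateField.adjoin ℂ (Set.range x) = IntermediateField.adjoin ℂ (Set.range t) ∧
      IsTranscendenceBasis ℂ y ∧ (∀ i j, E i (y j) = if i = j then 1 else 0) ∧
      (∀ i f, E' i (algebraMap L K f) = algebraMap L K (E i f)) ∧
      Algebra.trace (IntermediateField.adjoin L (Set.range x)) K (ω E') ≠ 0 := by
  classical
  have hL : Algebra.trdeg ℂ L = n := Pool.Agent.Y184.NT.trdeg_below (K := K) htr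
  obtain ⟨z, E, hz, hE⟩ := Pool.Agent.Y172.exists_crd (k := ℂ) (K := L) hL
  choose E' hE' using fun i => Pool.Agent.Y172.exists_lift (k := ℂ) (K := L) (L := K) hL (E i)
  have hzK : IsTranscendenceBasis ℂ (fun j => algebraMap L K (z j)) := hz.algebraMap_comp
  have hE'd := Pool.Agent.Y172.lift_dual hE hE'
  obtain ⟨x, hx⟩ : ∃ x : Fin (N + 1) → K, x = Fin.cons 1 t := ⟨_, rfl⟩
  have hx0 : x 0 = 1 := by rw [hx, Fin.cons_zero]
  have hrange : Set.range x = insert 1 (Set.range t) := by
    rw [hx, Fin.range_cons]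
  have hadj : IntermediateField.adjoin L (Set.range x) =
      IntermediateField.adjoin L (Set.range t) := by
    rw [hrange]
    apply le_antisymm
    · rw [IntermediateField.adjoin_le_iff]
      rintro y (rfl | hy)
      · exact one_mem _
      · exact IntermediateField.subset_adjoin _ _ hy
    · exact IntermediateField.adjoin.mono _ _ _ (Set.subset_insert _ _)
  have hadjC : IntermediateField.adjoin ℂ (Set.range x) =
      IntermediateField.adjoin ℂ (Set.range t) := by
    rw [hrange]
    apply le_antisymm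
    · rw [IntermediateField.adjoin_le_iff]
      rintro y (rfl | hy)
      · exact one_mem _
      · exact IntermediateField.subset_adjoin _ _ hy
    · exact IntermediateField.adjoin.mono _ _ _ (Set.subset_insert _ _)
  have hne : Algebra.trace (IntermediateField.adjoin L (Set.range x)) K (ω E') ≠ 0 := by
    rw [hadj]
    obtain ⟨D, D', hD, htr'⟩ := htn
    intro h0
    apply htr'
    have hLF : ∀ f : L, algebraMap L K f ∈
        (IntermediateField.adjoin L (Set.range t)).restrictScalars ℂ := fun f =>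
      (IntermediateField.adjoin L (Set.range t)).algebraMap_mem f
    have h1 : Algebra.trace ((IntermediateField.adjoin L (Set.range t)).restrictScalars ℂ) K
        (ω E') = 0 := by
      have h2 : ((Algebra.trace (IntermediateField.adjoin L (Set.range t)) K (ω E') :
          IntermediateField.adjoin L (Set.range t)) : K) = 0 := by
        rw [h0]
        rfl
      apply Subtype.ext
      exact h2
    obtain ⟨δ, hδ⟩ : ∃ δ : (IntermediateField.adjoin L (Set.range t)).restrictScalars ℂ,
      δ = (Matrix.of fun i j => D i ⟨algebraMap L K (z j), hLF _⟩ :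
        Matrix (Fin n) (Fin n) ((IntermediateField.adjoin L
          (Set.range t)).restrictScalars ℂ)).det := ⟨_, rfl⟩
    have h2 : ω D' = δ • ω E' := by
      rw [Pool.Agent.Y172.pluri_coord hzK hE'd hω D', pow_one, Algebra.smul_def, hδ,
        RingHom.map_det]
      congr 1
      congr 1
      ext i j
      rw [RingHom.mapMatrix_apply, Matrix.map_apply, Matrix.of_apply, Matrix.of_apply]
      exact hD i ⟨algebraMap L K (z j), hLF _⟩
    rw [h2, map_smul, h1, smul_zero]
  refine ⟨x, z, E, E', hx0, fun j => by rw [hx, Fin.cons_succ], hadj, hadjC, hz, hE, hE', hne⟩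

/-- **The core.** -/
theorem core_sys [Algebra.EssFiniteType ℂ K] (htr : Algebra.trdeg ℂ K = n) {t : Fin N → K}
    (hd : Algebra.trdeg ℂ (IntermediateField.adjoin ℂ (Set.range t)) = (d : ℕ))
    {L : Type} [Field L] [Algebra ℂ L] [Algebra L K] [IsScalarTower ℂ L K]
    [FiniteDimensional L K] {ω : (Fin n → Derivation ℂ K K) → K} (hω : IsPluri 1 ω)
    {ι : Type} {G : ι → IntermediateField.adjoin L (Set.range t)}
    (hreg : ∀ a (P : Place ℂ K), Divisorial n P → RegAt P (fun D => (G a : K) * ω D))
    {x' : Fin N → IntermediateField.adjoin L (Set.range t)} (hx' : ∀ j, (x' j : K) = t j)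
    (hG : SepSys β M x' G)
    (htn : TraceNe ω ((IntermediateField.adjoin L (Set.range t)).restrictScalars ℂ))
    (hm : ∀ Λ : Finset (Fin q), Λ.Nonempty → fdeg L β t Λ ≤ ∑ b ∈ Λ, M b + 1) :
    (∃ η : (Fin n → Derivation ℂ L L) → L, IsPluri 1 η ∧
      (∀ P : Place ℂ L, Divisorial n P → RegAt P η) ∧ ∃ D, η D ≠ 0) ∧
    ∀ r : ℕ, r ≤ d →
      (∀ Λ : Finset (Fin q), Λ.Nonempty →
        Algebra.trdeg ℂ (IntermediateField.adjoin ℂ (t '' {j | β j ∉ Λ})) < (r : ℕ) →
        2 * fdeg L β t Λ ≤ ∑ b ∈ Λ, M b + 1) →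
      Pool.Agent.W619.Y.KodTrB ℂ L n (fun _ => False) r := by
  classical
  have hessL : Algebra.EssFiniteType ℂ L := Pool.Agent.TH466.QG.ess_below (K := K)
  have hL : Algebra.trdeg ℂ L = n := Pool.Agent.Y184.NT.trdeg_below (K := K) htr
  have hcL : CharZero L := charZero_of_injective_algebraMap (algebraMap ℂ L).injective
  obtain ⟨x, y, E, E', -, -, hadj, -, hy, hE, hE', hne⟩ := core_red' htr hω htn
  rw [hadj] at hne
  obtain ⟨W, hWdef⟩ : ∃ W : ι → (Fin n → Derivation ℂ K K) → K,
    W = fun a D => (G a : K) * ω D := ⟨_, rfl⟩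
  have hWp : ∀ a, IsPluri 1 (W a) := by
    intro a A D
    rw [hWdef]
    change (G a : K) * ω (fun i => ∑ j, A i j • D j) = _
    rw [hω A D]
    ring
  have hWr : ∀ (a : ι) (P : Place ℂ K), Divisorial n P →
      SecAt (fun _ => False) P (W a) := by
    intro a P hP
    rw [hWdef]
    exact secAt_of (hreg a P hP)
  obtain ⟨T, hTdef⟩ : ∃ T : ι → L, ∀ a, T a = Algebra.trace L K (W a E') :=
    ⟨_, fun _ => rfl⟩
  have hT : ∀ a, T a = Algebra.trace L (IntermediateField.adjoin L (Set.range t))
      (G a * Algebra.trace (IntermediateField.adjoin L (Set.range t)) K (ω E')) := by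
    intro a
    have h2 : W a E' = G a • ω E' := by
      rw [hWdef, Algebra.smul_def]
      rfl
    rw [hTdef, h2, ← Algebra.trace_trace (S := IntermediateField.adjoin L (Set.range t)),
      map_smul, smul_eq_mul]
  have hθr : ∀ (a : ι) (P : Place ℂ L), Divisorial n P →
      SecAt (fun _ => False) P (trForm y (T a)) := by
    intro a P hP
    rw [hTdef]
    exact trForm_sec hL hy hE hE' (W a) (hWp a) (fun _ _ _ _ h => h) (hWr a) P hP
  have hθE : ∀ c, trForm y c E = c := by
    intro c
    have h1 : (Matrix.of fun i j => E i (y j) : Matrix (Fin n) (Fin n) L) = 1 := by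
      ext i j
      rw [Matrix.of_apply, hE, Matrix.one_apply]
    rw [trForm, h1, Matrix.det_one, one_mul]
  have hgen : IntermediateField.adjoin L (Set.range x') = ⊤ :=
    Pool.Agent.R882.WR.gen_self x' hx'
  have hd' : Algebra.trdeg ℂ (IntermediateField.adjoin ℂ (Set.range x')) = (d : ℕ) := by
    have h1 := trdeg_map hx' Set.univ
    rw [Set.image_univ, Set.image_univ] at h1
    rw [h1]
    exact hd
  have hm' : ∀ Λ : Finset (Fin q), Λ.Nonempty →
      finrank (IntermediateField.adjoin L (x' '' {j | β j ∉ Λ}))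
        (IntermediateField.adjoin L (Set.range t)) ≤ ∑ b ∈ Λ, M b + 1 := by
    intro Λ hΛ
    rw [fdeg_eq hx']
    exact hm Λ hΛ
  refine ⟨?_, fun r hr hk => ?_⟩
  · obtain ⟨a, hTa⟩ := exists_ne_sys hG hgen hm' hne hT
    refine ⟨trForm y (T a), trForm_pluri y _, fun P hP => (hθr a P hP).2 fun h => h, E, ?_⟩
    rw [hθE]
    exact hTa
  · obtain ⟨s, hs0, hs⟩ := ratios_sys hG hL hgen hd' hm' hr (fun Λ hΛ hΛr => by
      rw [trdeg_map hx'] at hΛr
      rw [fdeg_eq hx']
      exact hk Λ hΛ hΛr) hne hT
    exact Pool.Agent.K4H25.AB.kod_ratios (T := T) (s := s) hE (fun a P hP => hθr a P hP) hs0 hs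

end

end Pool.Agent.K4H25.PC
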