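import Pool.Agent.K4H25.PC.Spec
import Pool.Agent.K4H25.PC.Kod

/-!
Products of regular differentials on curves.
-/

set_option autoImplicit false
set_option linter.overlappingInstances false
set_option linter.unusedSectionVars false
set_option maxHeartbeats 4000000
set_option synthInstance.maxHeartbeats 400000

open FF Module Pool.Agent Pool.Agent.W602.GT
open Pool.Agent.W603.LV (vo vo_eq Ge)

namespace Pool.Agent.K4H25.PC

section

variable {K : Type} [Field K] [Algebra ℂ K]

theorem transcendental_of_der {E : Type} [Field E] [Algebra ℂ E] {x : E}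
    {D0 : Derivation ℂ E E} (hD0 : D0 x = 1) : Transcendental ℂ x := by
  intro h
  have h2 := IsAlgClosed.degree_eq_one_of_irreducible ℂ (minpoly.irreducible h.isIntegral)
  obtain ⟨c, hc⟩ := minpoly.mem_range_of_degree_eq_one ℂ x h2
  rw [← hc, Derivation.map_algebraMap] at hD0
  exact zero_ne_one hD0

/-- `g dx` is regular on `K` if it is regular on the curve. -/
theorem reg_entry {E : Type} [Field E] [Algebra ℂ E] [Algebra E K] [IsScalarTower ℂ E K]
    [IsFF ℂ E] {x : E} {D0 : Derivation ℂ E E} (hD0 : D0 x = 1) {g : E}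
    (hg : g = 0 ∨ ∀ Q : Place ℂ E, vo Q D0 ≤ Q.ord g) (P : Place ℂ K)
    {D' : Derivation ℂ K K} (hD' : DerReg P D') :
    P.Reg (algebraMap E K g * D' (algebraMap E K x)) := by
  have hx := transcendental_of_der hD0
  have hD00 : D0 ≠ 0 := by
    rintro rfl
    simp at hD0
  rcases hg with hg | hg
  · rw [hg, map_zero, zero_mul]
    exact P.reg_zero
  by_cases hall : ∀ f : E, P.ord (algebraMap E K f) = 0
  · have h1 : ∀ f : E, P.Reg (algebraMap E K f) := fun f => Or.inr (hall f).ge
    exact P.reg_mul (h1 g) (hD' _ (h1 x))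
  · push Not at hall
    obtain ⟨e, Q, hQ⟩ := exists_over (K := E) P hall
    obtain ⟨π, hπ0, hπ⟩ := Q.surj
    obtain ⟨r, hr1, hr2⟩ := Pool.Agent.W619.PQ.ratio' (K := K) hx π
    have h1 := hr1 D0
    rw [hD0, mul_one] at h1
    have h2 := hr2 D'
    have h3 : vo Q D0 = Q.ord r := by
      rw [← vo_eq Q hπ hD00, h1]
    have hr0 : r ≠ 0 := by
      rw [← h1]
      exact (Pool.Agent.W603.LV.ord_der Q hD00 (f := π) (by omega)).1
    have h4 : algebraMap E K g * D' (algebraMap E K x) =
        algebraMap E K (g / r) * D' (algebraMap E K π) := by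
      rw [h2, map_div₀]
      have : algebraMap E K r ≠ 0 := by simpa using hr0
      field_simp
    rw [h4]
    refine P.reg_mul ?_ (hD' _ ?_)
    · by_cases hg0 : g = 0
      · rw [hg0, zero_div, map_zero]
        exact P.reg_zero
      · right
        rw [hQ.2, Q.ord_div hg0 hr0]
        have h5 := hg Q
        rw [h3] at h5
        have h6 : (0 : ℤ) ≤ Q.ord g - Q.ord r := by omega
        positivity
    · right
      rw [hQ.2, hπ]
      positivity

/-- The product of regular differentials is regular. -/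
theorem reg_prod {n : ℕ} {E : Fin n → IntermediateField ℂ K} [∀ p, IsFF ℂ (E p)]
    {x : ∀ p, E p} {D0 : ∀ p, Derivation ℂ (E p) (E p)} (hD0 : ∀ p, D0 p (x p) = 1)
    {g : ∀ p, E p} (hg : ∀ p, g p = 0 ∨ ∀ Q : Place ℂ (E p), vo Q (D0 p) ≤ Q.ord (g p))
    (P : Place ℂ K) :
    RegAt P (fun D : Fin n → Derivation ℂ K K => (∏ p, (g p : K)) *
      (Matrix.of fun i j => D i (x j : K)).det) := by
  classical
  intro D hD
  have h1 : (∏ p, (g p : K)) * (Matrix.of fun i j => D i (x j : K)).det =
      (Matrix.of fun i j => (g j : K) * D i (x j : K)).det := by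
    rw [← Matrix.det_mul_row]
    rfl
  change P.Reg ((∏ p, (g p : K)) * (Matrix.of fun i j => D i (x j : K)).det)
  rw [h1]
  have h2 : ∀ i j, (g j : K) * D i (x j : K) ∈ P.O := fun i j =>
    reg_entry (E := E j) (hD0 j) (hg j) P (hD i)
  have h3 : (Matrix.of fun i j => (g j : K) * D i (x j : K)).det =
      P.O.subtype (Matrix.of fun i j => (⟨_, h2 i j⟩ : P.O)).det := by
    rw [RingHom.map_det]
    rfl
  rw [h3]
  exact (Matrix.of fun i j => (⟨_, h2 i j⟩ : P.O)).det.2

theorem pluri_det {n : ℕ} (x : Fin n → K) :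
    IsPluri 1 (fun D : Fin n → Derivation ℂ K K => (Matrix.of fun i j => D i (x j)).det) := by
  intro A D
  change (Matrix.of fun i j => (∑ l, A i l • D l) (x j)).det =
    A.det ^ 1 * (Matrix.of fun i j => D i (x j)).det
  rw [pow_one, ← Matrix.det_mul]
  congr 1
  ext i j
  rw [Matrix.mul_apply, Matrix.of_apply, Pool.Agent.W357.PG.sum_apply']
  refine Finset.sum_congr rfl fun l _ => ?_
  rw [Derivation.coe_smul, Pi.smul_apply, smul_eq_mul]
  rfl

end

end Pool.Agent.K4H25.PC
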