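import Pool.Agent.K4H25.PC.Form
import Pool.Agent.K4H25.MG.Full

/-!
Images of varieties over products of curves.
-/

set_option autoImplicit false
set_option linter.overlappingInstances false
set_option linter.unusedSectionVars false
set_option maxHeartbeats 4000000
set_option synthInstance.maxHeartbeats 400000

open FF Module Pool.Agent Pool.Agent.W602.GT
open Pool.Agent.W603.LV (vo vo_eq Ge)
open Pool.Agent.R882.LT (TraceNe)

namespace Pool.Agent.K4H25.PC

open Pool.Agent.K4H25.MG

/-- The degree of `L(C p : p)` over its subfield generated by the `C p`, `p ∉ Λ`. -/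
noncomputable def cdeg {K : Type} [Field K] [Algebra ℂ K] {q : ℕ} (L : Type) [Field L]
    [Algebra L K] (C : Fin q → IntermediateField ℂ K) (Λ : Finset (Fin q)) : ℕ :=
  (IntermediateField.adjoin L {z | ∃ p, p ∉ Λ ∧ z ∈ C p}).relfinrank
    (IntermediateField.adjoin L {z | ∃ p, z ∈ C p})

theorem SepFam.comp {E F κ : Type} [Field E] [Field F] [Algebra ℂ E] [Algebra ℂ F] {M : ℕ}
    {g : κ → E} (h : SepFam M Set.univ g) (i : E →ₐ[ℂ] F) {X : Set F}
    (hX : X ⊆ Set.range i) : SepFam M X (fun a => i (g a)) := by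
  intro Ω ι _ _ S c φ s0 hφ hs0 hS hd hrel
  refine h Ω ι S c (fun s => (φ s).comp i.toRingHom) s0 (fun s s' z => ?_) hs0 hS
    (fun s hs => ?_) hrel
  · change φ s (i (algebraMap ℂ E z)) = φ s' (i (algebraMap ℂ E z))
    rw [i.commutes]
    exact hφ s s' z
  · obtain ⟨z, hz, hne⟩ := hd s hs
    obtain ⟨y, rfl⟩ := hX hz
    exact ⟨y, trivial, hne⟩

section

variable {K : Type} [Field K] [Algebra ℂ K] {n q : ℕ} {C : Fin q → IntermediateField ℂ K}
  [∀ p, IsFF ℂ (C p)]

/-- generators of the curves -/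
theorem exists_gens : ∃ (N : ℕ) (β : Fin N → Fin q) (t : Fin N → K),
    (∀ j, t j ∈ C (β j)) ∧ ∀ Λ : Finset (Fin q), ∀ (L : Type) [Field L] [Algebra ℂ L]
      [Algebra L K] [IsScalarTower ℂ L K],
      IntermediateField.adjoin L (t '' {j | β j ∉ Λ}) =
        IntermediateField.adjoin L {z | ∃ p, p ∉ Λ ∧ z ∈ C p} := by
  classical
  have h1 : ∀ p, ∃ s : Finset (C p), IntermediateField.adjoin ℂ (s : Set (C p)) = ⊤ := by
    intro p
    have hess : Algebra.EssFiniteType ℂ (C p) := (inferInstance : IsFF ℂ (C p)).ess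
    exact IntermediateField.fg_top ℂ (C p)
  choose s hs using h1
  let J := Σ p : Fin q, {z // z ∈ s p}
  obtain ⟨e⟩ : Nonempty (Fin (Fintype.card J) ≃ J) := ⟨(Fintype.equivFin J).symm⟩
  refine ⟨Fintype.card J, fun j => (e j).1, fun j => (((e j).2 : C (e j).1) : K),
    fun j => ((e j).2 : C (e j).1).2, ?_⟩
  intro Λ L _ _ _ _
  apply le_antisymm
  · refine IntermediateField.adjoin.mono _ _ _ ?_
    rintro _ ⟨j, hj, rfl⟩
    exact ⟨(e j).1, hj, ((e j).2 : C (e j).1).2⟩
  · rw [IntermediateField.adjoin_le_iff]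
    rintro z ⟨p, hp, hz⟩
    have h2 : (IntermediateField.adjoin ℂ (s p : Set (C p))).map (C p).val = C p := by
      rw [hs, ← AlgHom.fieldRange_eq_map, IntermediateField.fieldRange_val]
    rw [IntermediateField.adjoin_map] at h2
    have h3 : C p ≤ (IntermediateField.adjoin L ((fun j => (((e j).2 : C (e j).1) : K)) ''
        {j | (e j).1 ∉ Λ})).restrictScalars ℂ := by
      rw [← h2, IntermediateField.adjoin_le_iff]
      rintro _ ⟨y, hy, rfl⟩
      refine IntermediateField.subset_adjoin L _ ⟨e.symm ⟨p, y, hy⟩, ?_, ?_⟩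
      · change (e (e.symm ⟨p, y, hy⟩)).1 ∉ Λ
        rw [Equiv.apply_symm_apply]
        exact hp
      · change (((e (e.symm ⟨p, y, hy⟩)).2 : C (e (e.symm ⟨p, y, hy⟩)).1) : K) = (y : K)
        rw [Equiv.apply_symm_apply]
    exact h3 hz

/-- independence of coordinates -/
theorem indep (hC : Algebra.trdeg ℂ (IntermediateField.adjoin ℂ {z | ∃ p, z ∈ C p}) = (q : ℕ))
    {x : ∀ p, C p} (hx : ∀ p, Transcendental ℂ (x p)) :
    AlgebraicIndependent ℂ (fun p => (x p : K)) := by
  classical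
  have h1 : ∀ z ∈ {z : K | ∃ p, z ∈ C p},
      IsAlgebraic (IntermediateField.adjoin ℂ (Set.range fun p => (x p : K))) z := by
    rintro z ⟨p, hz⟩
    exact Pool.Agent.W619.PQ.alg_iSup C x hx (le_iSup C p hz)
  have h2 := trdeg_le_of_alg h1
  rw [hC] at h2
  obtain ⟨e, he⟩ : ∃ e : ℕ, Algebra.trdeg ℂ (IntermediateField.adjoin ℂ
      (Set.range fun p => (x p : K))) = e := by
    have h3 : IntermediateField.adjoin ℂ (Set.range fun p => (x p : K)) ≤
        IntermediateField.adjoin ℂ {z : K | ∃ p, z ∈ C p} := by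
      refine IntermediateField.adjoin.mono _ _ _ ?_
      rintro _ ⟨p, rfl⟩
      exact ⟨p, (x p).2⟩
    have h4 := trdeg_le_of_injective (IntermediateField.inclusion h3)
      (IntermediateField.inclusion_injective h3)
    rw [hC] at h4
    obtain ⟨e, h5⟩ := Cardinal.lt_aleph0.1 (h4.trans_lt Cardinal.natCast_lt_aleph0)
    exact ⟨e, h5⟩
  rw [he] at h2
  have h3 : q ≤ e := by exact_mod_cast h2
  obtain ⟨tt, htt, hind, -⟩ := Pool.Agent.R885.exists_mono_basis (k := ℂ) (K := K)
    (G := Set.range fun p => (x p : K)) (d := e) he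
  choose σ hσ using htt
  have hσi : Function.Injective σ := by
    intro i i' h
    apply hind.injective
    rw [← hσ, ← hσ, h]
  have h4 : e ≤ q := by
    have := Fintype.card_le_of_injective σ hσi
    simpa using this
  obtain rfl : e = q := le_antisymm h4 h3
  have hb : Function.Bijective σ := (Fintype.bijective_iff_injective_and_card σ).2 ⟨hσi, rfl⟩
  have h5 : (fun p => (x p : K)) = tt ∘ (Equiv.ofBijective σ hb).symm := by
    funext p
    rw [Function.comp_apply, ← hσ]
    congr 2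
    · rw [← Equiv.ofBijective_apply σ (hf := hb), Equiv.apply_symm_apply]
    · rw [← Equiv.ofBijective_apply σ (hf := hb), Equiv.apply_symm_apply]
  rw [h5]
  exact hind.comp _ (Equiv.ofBijective σ hb).symm.injective

/-- **The general theorem.** -/
theorem main_gen [Algebra.EssFiniteType ℂ K] (hK : Algebra.trdeg ℂ K = n)
    (hC : Algebra.trdeg ℂ (IntermediateField.adjoin ℂ {z | ∃ p, z ∈ C p}) = (q : ℕ))
    {M : Fin q → ℕ}
    (hgon : ∀ p (b : C p), Transcendental ℂ b →
      M p + 1 < finrank (IntermediateField.adjoin ℂ {b}) (C p))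
    {D0 : ∀ p, Derivation ℂ (C p) (C p)} (hD0 : ∀ p, D0 p ≠ 0)
    {ω : (Fin n → Derivation ℂ K K) → K} (hω : IsPluri 1 ω)
    (hreg : ∀ g : ∀ p, C p, (∀ p, g p = 0 ∨ ∀ Q : Place ℂ (C p), vo Q (D0 p) ≤ Q.ord (g p)) →
      ∀ P : Place ℂ K, Divisorial n P → RegAt P (fun D => (∏ p, (g p : K)) * ω D))
    (L : Type) [Field L] [Algebra ℂ L] [Algebra L K] [IsScalarTower ℂ L K]
    [FiniteDimensional L K]
    (htn : TraceNe ω ((IntermediateField.adjoin L {z | ∃ p, z ∈ C p}).restrictScalars ℂ))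
    (hm : ∀ Λ : Finset (Fin q), Λ.Nonempty → cdeg L C Λ ≤ ∑ b ∈ Λ, M b + 1) :
    (∃ η : (Fin n → Derivation ℂ L L) → L, IsPluri 1 η ∧
      (∀ P : Place ℂ L, Divisorial n P → RegAt P η) ∧ ∃ D, η D ≠ 0) ∧
    ∀ r : ℕ, r ≤ q →
      (∀ Λ : Finset (Fin q), q < r + Λ.card → 2 * cdeg L C Λ ≤ ∑ b ∈ Λ, M b + 1) →
      KodGe ℂ L n (fun _ => False) r := by
  classical
  obtain ⟨N, β, t, htC, hgens⟩ := exists_gens (C := C)
  have hempty : ∀ (L : Type) [Field L] [Algebra ℂ L] [Algebra L K] [IsScalarTower ℂ L K],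
      IntermediateField.adjoin L (Set.range t) = IntermediateField.adjoin L {z | ∃ p, z ∈ C p} := by
    intro L _ _ _ _
    have h1 := hgens ∅ L
    have h2 : t '' {j | β j ∉ (∅ : Finset (Fin q))} = Set.range t := by
      rw [← Set.image_univ]
      congr 1
      ext j
      simp
    have h3 : {z : K | ∃ p, p ∉ (∅ : Finset (Fin q)) ∧ z ∈ C p} = {z | ∃ p, z ∈ C p} := by
      ext z
      simp
    rw [h2, h3] at h1
    exact h1
  have hfd : ∀ Λ, fdeg L β t Λ = cdeg L C Λ := by
    intro Λ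
    rw [fdeg, cdeg, hgens Λ L, hempty L]
  choose m g hg1 hg2 using fun p => exists_reg_fam (F := C p) (hD0 p)
  have hmem : ∀ p (z : C p), (z : K) ∈ IntermediateField.adjoin L (Set.range t) := by
    intro p z
    rw [hempty L]
    exact IntermediateField.subset_adjoin L _ ⟨p, z.2⟩
  have hTow : IsScalarTower ℂ (IntermediateField.adjoin L (Set.range t)) K :=
    IsScalarTower.of_algebraMap_eq fun r => rfl
  let iF : ∀ p, C p →ₐ[ℂ] IntermediateField.adjoin L (Set.range t) := fun p =>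
    { toFun := fun z => ⟨(z : K), hmem p z⟩
      map_one' := rfl
      map_mul' := fun _ _ => rfl
      map_zero' := rfl
      map_add' := fun _ _ => rfl
      commutes' := fun c => Subtype.ext (IsScalarTower.algebraMap_apply ℂ
        (IntermediateField.adjoin L (Set.range t)) K c) }
  obtain ⟨x', hx'⟩ : ∃ x' : Fin N → IntermediateField.adjoin L (Set.range t),
    ∀ j, (x' j : K) = t j :=
    ⟨fun j => ⟨t j, IntermediateField.subset_adjoin L _ ⟨j, rfl⟩⟩, fun _ => rfl⟩
  have hG : SepSys β M x' (fun a : (∀ p, Fin (m p)) => ∏ p, iF p (g p (a p))) := by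
    refine sepSys_prod (g := fun p a => iF p (g p a)) fun p => ?_
    refine (sepFam_of_gonality (hgon p) (hD0 p) (hg2 p)).comp (iF p) ?_
    rintro _ ⟨j, rfl, rfl⟩
    refine ⟨⟨t j, htC j⟩, ?_⟩
    apply Subtype.ext
    exact (hx' j).symm
  have htn' : TraceNe ω ((IntermediateField.adjoin L (Set.range t)).restrictScalars ℂ) := by
    rw [hempty L]
    exact htn
  have hd' : Algebra.trdeg ℂ (IntermediateField.adjoin ℂ (Set.range t)) = (q : ℕ) := by
    rw [hempty ℂ]
    exact hC
  obtain ⟨h1, h2⟩ := core_sys (β := β) (M := M) (G := fun a : (∀ p, Fin (m p)) =>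
      ∏ p, iF p (g p (a p))) hK hd' hω (fun a P hP => by
      have h3 := hreg (fun p => g p (a p)) (fun p => hg1 p (a p)) P hP
      have h4 : ((∏ p, iF p (g p (a p)) : IntermediateField.adjoin L (Set.range t)) : K) =
          ∏ p, (g p (a p) : K) :=
        map_prod (IntermediateField.adjoin L (Set.range t)).val _ _
      rw [h4]
      exact h3) hx' hG htn' (fun Λ hΛ => by rw [hfd]; exact hm Λ hΛ)
  refine ⟨h1, fun r hr hk => Pool.Agent.R882.KR.kodGe_of_tr (h2 r hr fun Λ hΛ hΛr => ?_)⟩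
  rw [hfd]
  apply hk
  -- coordinates
  have hx : ∀ p, ∃ x : C p, Transcendental ℂ x := fun p =>
    IsFF.exists_transcendental (k := ℂ) (K := C p)
  choose x hx using hx
  have hind := indep hC hx
  rw [hgens Λ ℂ] at hΛr
  have hxm : ∀ p : {p // p ∉ Λ}, (x p.1 : K) ∈
      IntermediateField.adjoin ℂ {z : K | ∃ p, p ∉ Λ ∧ z ∈ C p} := fun p =>
    IntermediateField.subset_adjoin ℂ _ ⟨p.1, p.2, (x p.1).2⟩
  have hind' : AlgebraicIndependent ℂ (fun p : {p // p ∉ Λ} =>
      (⟨(x p.1 : K), hxm p⟩ : IntermediateField.adjoin ℂ {z : K | ∃ p, p ∉ Λ ∧ z ∈ C p})) := by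
    apply AlgebraicIndependent.of_comp
      (IntermediateField.adjoin ℂ {z : K | ∃ p, p ∉ Λ ∧ z ∈ C p}).val
    exact hind.comp (fun p : {p // p ∉ Λ} => p.1) Subtype.val_injective
  have h3 := hind'.cardinalMk_le_trdeg.trans_lt hΛr
  have h4 : Fintype.card {p // p ∉ Λ} < r := by
    rw [Cardinal.mk_fintype] at h3
    exact_mod_cast h3
  have h5 : Fintype.card {p // p ∉ Λ} = q - Λ.card := by
    rw [Fintype.card_subtype_compl, Fintype.card_fin, Fintype.card_coe]
  have h6 : Λ.card ≤ q := by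
    have := Finset.card_le_univ Λ
    simpa using this
  omega

end

section

variable {K : Type} [Field K] [Algebra ℂ K] {n : ℕ} {C : Fin n → IntermediateField ℂ K}
  [∀ p, IsFF ℂ (C p)]

/-- **Varieties which are generically finite over a product of curves.** -/
theorem main_curves [Algebra.EssFiniteType ℂ K] (hK : Algebra.trdeg ℂ K = n)
    (hC : Algebra.trdeg ℂ (IntermediateField.adjoin ℂ {z | ∃ p, z ∈ C p}) = (n : ℕ))
    {M : Fin n → ℕ}
    (hgon : ∀ p (b : C p), Transcendental ℂ b →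
      M p + 1 < finrank (IntermediateField.adjoin ℂ {b}) (C p))
    (L : Type) [Field L] [Algebra ℂ L] [Algebra L K] [IsScalarTower ℂ L K]
    [FiniteDimensional L K]
    (hm : ∀ Λ : Finset (Fin n), Λ.Nonempty → cdeg L C Λ ≤ ∑ b ∈ Λ, M b + 1) :
    (∃ η : (Fin n → Derivation ℂ L L) → L, IsPluri 1 η ∧
      (∀ P : Place ℂ L, Divisorial n P → RegAt P η) ∧ ∃ D, η D ≠ 0) ∧
    ∀ r : ℕ, r ≤ n →
      (∀ Λ : Finset (Fin n), n < r + Λ.card → 2 * cdeg L C Λ ≤ ∑ b ∈ Λ, M b + 1) →
      KodGe ℂ L n (fun _ => False) r := by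
  classical
  have hx : ∀ p, ∃ x : C p, Transcendental ℂ x := fun p =>
    IsFF.exists_transcendental (k := ℂ) (K := C p)
  choose x hx using hx
  have hind := indep hC hx
  -- the dual vector fields
  have hDx : ∀ p, ∃ D : Derivation ℂ (C p) (C p), D (x p) = 1 := by
    intro p
    have h1 := Pool.Agent.W603.LV.der_ne (k := ℂ) (K := C p)
    have h2 := Pool.Agent.W603.LV.der_ne_zero h1 (hx p)
    refine ⟨(Pool.Agent.W603.LV.der ℂ (C p) (x p))⁻¹ • Pool.Agent.W603.LV.der ℂ (C p), ?_⟩
    rw [Derivation.coe_smul, Pi.smul_apply, smul_eq_mul, inv_mul_cancel₀ h2]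
  choose D0 hD0 using hDx
  have hD00 : ∀ p, D0 p ≠ 0 := by
    intro p h
    have h1 := hD0 p
    rw [h] at h1
    simp at h1
  refine main_gen hK hC hgon hD00 (pluri_det fun p => (x p : K))
    (fun g hg P _ => reg_prod hD0 hg P) L ?_ hm
  -- the trace
  obtain ⟨F', hF'⟩ : ∃ F' : IntermediateField L K,
    F' = IntermediateField.adjoin L {z | ∃ p, z ∈ C p} := ⟨_, rfl⟩
  rw [← hF']
  have hfin : FiniteDimensional (F'.restrictScalars ℂ) K := by
    have h1 : FiniteDimensional F' K := inferInstance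
    exact h1
  have htrF : Algebra.trdeg ℂ (F'.restrictScalars ℂ) = n := by
    have h1 : Algebra.IsAlgebraic (F'.restrictScalars ℂ) K := inferInstance
    exact Pool.Agent.Y184.NT.trdeg_below (K := K) hK
  have hxF : ∀ p, (x p : K) ∈ F'.restrictScalars ℂ := by
    intro p
    rw [hF']
    exact IntermediateField.subset_adjoin L _ ⟨p, (x p).2⟩
  have hbasis : IsTranscendenceBasis ℂ (fun p => (⟨(x p : K), hxF p⟩ : F'.restrictScalars ℂ)) := by
    have h1 : AlgebraicIndependent ℂ (fun p => (⟨(x p : K), hxF p⟩ : F'.restrictScalars ℂ)) := by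
      apply AlgebraicIndependent.of_comp (F'.restrictScalars ℂ).val
      exact hind
    refine h1.isTranscendenceBasis_of_lift_trdeg_le_of_finite ?_
    rw [htrF]
    simp
  choose D hD using fun j => Pool.Agent.W619.PQ.exists_dual _ hbasis j
  choose D' hD' using fun j => Pool.Agent.Y172.exists_lift (k := ℂ) (K := F'.restrictScalars ℂ)
    (L := K) (n := n) htrF (D j)
  refine ⟨D, D', hD', ?_⟩
  have h1 : (Matrix.of fun i j => D' i (x j : K)).det = 1 := by
    have h2 : (Matrix.of fun i j => D' i (x j : K) : Matrix (Fin n) (Fin n) K) = 1 := by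
      ext i j
      rw [Matrix.of_apply, Matrix.one_apply]
      have h3 := hD' i ⟨(x j : K), hxF j⟩
      rw [hD i j] at h3
      have h4 : (D' i) (x j : K) = algebraMap (F'.restrictScalars ℂ) K (if j = i then 1 else 0) := h3
      rw [h4]
      by_cases hij : i = j
      · rw [if_pos hij.symm, if_pos hij, map_one]
      · rw [if_neg (fun h => hij h.symm), if_neg hij, map_zero]
    rw [h2, Matrix.det_one]
  change Algebra.trace (F'.restrictScalars ℂ) K (Matrix.of fun i j => D' i (x j : K)).det ≠ 0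
  have h5 : 0 < finrank (F'.restrictScalars ℂ) K := finrank_pos
  rw [h1, ← map_one (algebraMap (F'.restrictScalars ℂ) K), Algebra.trace_algebraMap,
    nsmul_eq_mul, mul_one]
  exact_mod_cast h5.ne'

end

end Pool.Agent.K4H25.PC
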