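import Pool.Agent.W619.PQ.Genus

/-!
Regular differentials on a curve which vanish at some points, but not at another point.
-/

set_option autoImplicit false
set_option linter.overlappingInstances false
set_option linter.unusedSectionVars false
set_option maxHeartbeats 4000000
set_option synthInstance.maxHeartbeats 400000

open Polynomial FF IsDedekindDomain IntermediateField

namespace Pool.Agent.K4H25.PC

open Pool.Agent.W603.LV Pool.Agent.W619.PQ

section

variable {k K F : Type*} [Field k] [Field K] [Field F] [Algebra k K] [Algebra k F] [Algebra K F]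
  [IsScalarTower k K F]

/-- The trace of a function which vanishes at all places over `q`. -/
theorem trace_ge_one [CharZero k] [FiniteDimensional K F] (q : Place k K) (y : F) (N : ℕ)
    (hN : ∀ (w : Place k F) (e : ℕ), Over w q e → e ≤ N)
    (hy : ∀ (w : Place k F) (e : ℕ), Over w q e → Ge w 1 y) : Ge q 1 (Algebra.trace K F y) := by
  classical
  let iA : Algebra q.O F := algO q
  let ik : Algebra k q.O := algk q
  obtain ⟨t, ht0, ht⟩ := q.surj
  have htr : q.Reg t := Or.inr (by omega)
  have htF : algebraMap K F t ≠ 0 := by simpa using ht0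
  have : IsDiscreteValuationRing q.O := q.isDVR
  have : CharZero K := charZero_of_injective_algebraMap (algebraMap k K).injective
  have : IsScalarTower q.O K F := IsScalarTower.of_algebraMap_eq fun _ => rfl
  have : IsScalarTower k q.O F := IsScalarTower.of_algebraMap_eq fun c => by
    rw [IsScalarTower.algebraMap_apply k K F]
    rfl
  let B := integralClosure q.O F
  have : IsDedekindDomain B := integralClosure.isDedekindDomain q.O K F
  have : IsFractionRing B F := integralClosure.isFractionRing_of_finite_extension K F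
  have hfin : Module.Finite q.O B := IsIntegralClosure.finite q.O K F B
  have hinj : Function.Injective (algebraMap q.O F) := by
    rw [IsScalarTower.algebraMap_eq q.O K F]
    exact (algebraMap K F).injective.comp (IsFractionRing.injective q.O K)
  have htf : Module.IsTorsionFree q.O B := by
    have hinj' : Function.Injective (algebraMap q.O B) := by
      intro a b h
      apply hinj
      rw [IsScalarTower.algebraMap_apply q.O B F, IsScalarTower.algebraMap_apply q.O B F, h]
    exact Module.isTorsionFree_iff_algebraMap_injective.2 hinj'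
  have hfree : Module.Free q.O B := inferInstance
  have hyB : IsIntegral q.O y := isIntegral_of_reg q y fun w e h => (hy w e h).mono (by omega)
  have hzB : IsIntegral q.O (y ^ N / algebraMap K F t) := by
    refine isIntegral_of_reg q _ fun w e hwe => ?_
    have h2 := (hy w e hwe).pow N
    by_cases h3 : y ^ N = 0
    · left; rw [h3, zero_div]
    · right
      rw [w.ord_div h3 htF, hwe.2, ht]
      have h4 := h2.resolve_left h3
      have h5 := hN w e hwe
      omega
  let yB : B := ⟨y, hyB⟩
  let zB : B := ⟨y ^ N / algebraMap K F t, hzB⟩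
  let tA : q.O := ⟨t, htr⟩
  have hmul : yB ^ N = algebraMap q.O B tA * zB := by
    apply Subtype.ext
    change y ^ N = algebraMap K F t * (y ^ N / algebraMap K F t)
    field_simp
  -- trace over the valuation ring
  have htrace : algebraMap q.O K (Algebra.trace q.O B yB) = Algebra.trace K F y := by
    rw [← Algebra.intTrace_eq_trace, Algebra.algebraMap_intTrace (L := F)]
    rfl
  let p := IsLocalRing.maximalIdeal q.O
  let _ : Field (q.O ⧸ p) := Ideal.Quotient.field p
  have hq := Algebra.trace_quotient_mk (R := q.O) (S := B) yB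
  have hnil : IsNilpotent (Algebra.lmul (q.O ⧸ p) (B ⧸ Ideal.map (algebraMap q.O B) p)
      (Ideal.Quotient.mk (Ideal.map (algebraMap q.O B) p) yB)) := by
    refine ⟨N, ?_⟩
    rw [← map_pow, ← map_pow, hmul]
    have h5 : Ideal.Quotient.mk (Ideal.map (algebraMap q.O B) p) (algebraMap q.O B tA * zB) = 0 := by
      rw [Ideal.Quotient.eq_zero_iff_mem]
      exact Ideal.mul_mem_right _ _ (Ideal.mem_map_of_mem _
        ((mem_maximalIdeal_iff q tA).2 (Or.inr ht.ge)))
    rw [h5, map_zero]
  have h6 := (LinearMap.isNilpotent_trace_of_isNilpotent hnil).eq_zero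
  have h7 : Algebra.trace (q.O ⧸ p) (B ⧸ Ideal.map (algebraMap q.O B) p)
      (Ideal.Quotient.mk (Ideal.map (algebraMap q.O B) p) yB) = 0 := h6
  rw [h7] at hq
  have h8 := Ideal.Quotient.eq_zero_iff_mem.1 hq.symm
  rw [mem_maximalIdeal_iff] at h8
  rw [← htrace]
  exact h8

end

section

variable {k F : Type*} [Field k] [Field F] [Algebra k F] [CharZero k] [IsFF k F] [IsAlgClosed k]

/-- A function with simple poles at given places. -/
theorem exists_simple_poles (S : Finset (Place k F)) :
    ∃ x : F, ∀ P ∈ S, x ≠ 0 ∧ P.ord x = -1 := by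
  classical
  have h1 : ∀ P : Place k F, ∃ b : F, (b ≠ 0 ∧ P.ord b = -1) ∧ ∀ Q ∈ S.erase P, Ge Q 0 b := by
    intro P
    obtain ⟨π, hπ0, hπ⟩ := P.surj
    obtain ⟨b, hb1, hb2⟩ := approx_one (S.erase P) P (by simp) π⁻¹ 0
    refine ⟨b, ?_, hb2⟩
    have hπi : P.ord π⁻¹ = -1 := by rw [P.ord_inv, hπ]
    by_cases h3 : b - π⁻¹ = 0
    · rw [sub_eq_zero.1 h3]
      exact ⟨inv_ne_zero hπ0, hπi⟩
    · have h4 := hb1.resolve_left h3
      have h5 := P.ord_add_eq (f := π⁻¹) (g := b - π⁻¹) (inv_ne_zero hπ0) h3 (by omega)
      rwa [add_sub_cancel, hπi] at h5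
  choose b hb1 hb2 using h1
  refine ⟨∑ P ∈ S, b P, fun P hP => ?_⟩
  rw [← Finset.add_sum_erase S _ hP]
  have h2 : Ge P 0 (∑ Q ∈ S.erase P, b Q) := by
    apply Ge.sum
    intro Q hQ
    exact hb2 Q P (Finset.mem_erase.2 ⟨(Finset.ne_of_mem_erase hQ).symm, hP⟩)
  by_cases h3 : ∑ Q ∈ S.erase P, b Q = 0
  · rw [h3, add_zero]
    exact hb1 P
  · have h4 := h2.resolve_left h3
    have h5 := P.ord_add_eq (hb1 P).1 h3 (by rw [(hb1 P).2]; omega)
    rw [(hb1 P).2] at h5
    exact h5

/-- functions whose poles over the poles of `x` are simple and in `S` -/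
def BS (x : F) (S : Finset (Place k F)) [DecidableEq (Place k F)] : Submodule k F where
  carrier := {y | ∀ P : Place k F, P.ord x < 0 → Ge P (if P ∈ S then -1 else 0) y}
  add_mem' := fun ha hb P hP => (ha P hP).add (hb P hP)
  zero_mem' := fun P _ => Ge.zero
  smul_mem' := by
    intro c y hy P hP
    rw [Algebra.smul_def]
    simpa using (Ge.const (P := P) c).mul (hy P hP)

/-- orders in `k(x)` at a place over infinity -/
theorem ord_iota {x : F} (hx : Transcendental k x) (P : Place k F) (hP : P.ord x < 0) {r : k⟮x⟯}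
    (hr : r ≠ 0) : P.ord (r : F) = -((iota hx r).order * P.ord x) := by
  obtain ⟨p, g, hg, hpg⟩ := exists_px_div r
  have hg' : g ≠ 0 := by
    rintro rfl
    exact hg rfl
  have hp : p ≠ 0 := by
    rintro rfl
    rw [map_zero, mul_eq_zero] at hpg
    rcases hpg with h | h
    · exact hr h
    · exact hg' (px_injective hx (by rw [h, map_zero]))
  have h7 := congrArg (iota hx) hpg
  rw [map_mul, iota_px, iota_px] at h7
  have h9 := congrArg HahnSeries.order h7
  rw [HahnSeries.order_mul (by rwa [Ne, map_eq_zero]) (eU_ne hg'), order_eU hg', order_eU hp] at h9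
  have h10 := congrArg (fun z : k⟮x⟯ => P.ord (algebraMap k⟮x⟯ F z)) hpg
  simp only [map_mul] at h10
  have h11 : ∀ s : k[X], algebraMap k⟮x⟯ F (px x s) = aeval x s := coe_px
  rw [h11, h11, P.ord_mul (by simpa using hr) (ord_aeval_of_neg P hP hg').1,
    (ord_aeval_of_neg P hP hg').2, (ord_aeval_of_neg P hP hp).2] at h10
  have h12 : (iota hx r).order = (g.natDegree : ℤ) - p.natDegree := by omega
  have h13 : P.ord (algebraMap k⟮x⟯ F r) = P.ord (r : F) := rfl
  rw [h13] at h10
  rw [h12]
  linarith

end

end Pool.Agent.K4H25.PC
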