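import Pool.Agent.K4H25.PC.Main
import Pool.Agent.W619.TW.Frame

/-!
Curves over function fields which come from the constants.
-/

set_option autoImplicit false
set_option linter.overlappingInstances false
set_option linter.unusedSectionVars false
set_option maxHeartbeats 4000000
set_option synthInstance.maxHeartbeats 400000

open Polynomial FF IntermediateField Pool.Agent.W603.LV Pool.Agent.W619.PQ Pool.Agent.W619.TW

namespace Pool.Agent.K4H25.PC

/-- A derivation which maps `T` to `B` maps the elements of `B` which are algebraic over `T` to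
`B`. -/
theorem der_mem {k K : Type*} [Field k] [CharZero k] [Field K] [Algebra k K]
    {T B : IntermediateField k K} (D : Derivation k K K) (hT : ∀ z ∈ T, z ∈ B ∧ D z ∈ B) {z : K}
    (hz : z ∈ B) (halg : IsAlgebraic T z) : D z ∈ B := by
  have key : ∀ p : T[X], ∃ b ∈ B, D (aeval z p) = b + aeval z (derivative p) * D z := by
    intro p
    induction p using Polynomial.induction_on' with
    | add p q hp hq =>
      obtain ⟨b, hb, h1⟩ := hp
      obtain ⟨c, hc, h2⟩ := hq
      refine ⟨b + c, add_mem hb hc, ?_⟩
      rw [map_add, map_add, h1, h2, derivative_add, map_add]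
      ring
    | monomial i a =>
      refine ⟨z ^ i * D (a : K), mul_mem (pow_mem hz i) (hT a a.2).2, ?_⟩
      rw [aeval_monomial, derivative_monomial, aeval_monomial, D.leibniz]
      change (a : K) • D (z ^ i) + z ^ i • D (a : K) = _
      rw [D.leibniz_pow, map_mul, map_natCast]
      change (a : K) • (i • z ^ (i - 1) • D z) + z ^ i • D (a : K) =
        z ^ i * D (a : K) + (a : K) * (i : K) * z ^ (i - 1) * D z
      simp only [smul_eq_mul, nsmul_eq_mul]
      ring
  have hchar : CharZero T := charZero_of_injective_algebraMap (algebraMap k T).injective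
  have hmem : ∀ p : T[X], aeval z p ∈ B := by
    intro p
    rw [aeval_eq_sum_range]
    refine sum_mem fun i _ => ?_
    rw [Algebra.smul_def]
    exact mul_mem (hT _ (p.coeff i).2).1 (pow_mem hz i)
  obtain ⟨b, hb, h1⟩ := key (minpoly T z)
  rw [minpoly.aeval, map_zero] at h1
  have h2 : aeval z (derivative (minpoly T z)) ≠ 0 :=
    (minpoly.irreducible halg.isIntegral).separable.aeval_derivative_ne_zero (minpoly.aeval _ _)
  have h3 : D z = -b * (aeval z (derivative (minpoly T z)))⁻¹ := by
    field_simp
    linear_combination -h1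
  rw [h3]
  exact mul_mem (neg_mem hb) (inv_mem (hmem _))

section

variable {k L : Type*} [Field k] [Field L] [Algebra k L] [CharZero k] [IsAlgClosed k]
  {M F : IntermediateField k L}

/-- Functions on a curve without poles are constant. -/
theorem const_of_reg [IsFF k F] {β : F} (h : ∀ q : Place k F, 0 ≤ q.ord β) :
    ∃ c : k, β = algebraMap k F c := by
  have halg : IsAlgebraic k β := by
    by_contra hcon
    obtain ⟨S, hS, hS2⟩ := poles (k := k) (K := F) (f := β) hcon
    have hfin := IsFF.finite (k := k) (K := F) (f := β) hcon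
    have hpos : 0 < Module.finrank k⟮β⟯ F := Module.finrank_pos
    obtain ⟨P, hP⟩ : S.Nonempty := by
      rw [Finset.nonempty_iff_ne_empty]
      rintro rfl
      rw [Finset.sum_empty] at hS2
      omega
    have h1 := (hS P).1 hP
    have h2 := h P
    omega
  have h2 := IsAlgClosed.degree_eq_one_of_irreducible k (minpoly.irreducible halg.isIntegral)
  obtain ⟨c, hc⟩ := minpoly.mem_range_of_degree_eq_one k β h2
  exact ⟨c, hc.symm⟩

/-- The constants are algebraically closed. -/
theorem cur_closed (h : Cur M F) {z : L} (hz : IsAlgebraic M z) : z ∈ M := by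
  classical
  have hff := h.ff
  have h0 : ∀ w : Place M L, Ge w 0 z := by
    intro w
    by_cases hz0 : z = 0
    · exact Or.inl hz0
    · exact Or.inr (w.ord_eq_zero_of_isAlgebraic hz0 hz).ge
  obtain ⟨s, β, hs, hβ⟩ := h.mem_span 0 z (fun w _ => h0 w) (fun w q _ => by
    rw [Finsupp.coe_zero, Pi.zero_apply, neg_zero]
    exact h0 w)
  rw [hs]
  refine sum_mem fun i hi => mul_mem (Module.Basis.ofVectorSpace k M i).2 ?_
  have h1 := hβ i hi
  rw [mem_LL] at h1
  obtain ⟨c, hc⟩ : ∃ c : k, β i = algebraMap k F c := by
    rcases h1 with h1 | h1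
    · exact ⟨0, by rw [h1, map_zero]⟩
    · exact const_of_reg fun q => by simpa using h1 q
  rw [hc]
  exact M.algebraMap_mem c

/-- **Regular differentials** on a constant curve are combinations of the regular differentials over
the constants. -/
theorem cur_reg_span (h : Cur M F) {x : F} {D0 : Derivation k F F} (hD0 : D0 x = 1)
    (hx : Transcendental k x) {D : Derivation k L L} (hDM : ∀ z ∈ M, D z = 0)
    (hDx : D (x : L) = 1) {z : L}
    (hz : ∀ (w : Place M L) (π : L), w.ord π = 1 → w.ord (D π) ≤ w.ord z) :
    ∃ (s : Finset (Module.Basis.ofVectorSpaceIndex k M))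
      (β : Module.Basis.ofVectorSpaceIndex k M → F),
      z = ∑ i ∈ s, ((Module.Basis.ofVectorSpace k M i : M) : L) * (β i : L) ∧
      ∀ i ∈ s, β i = 0 ∨ ∀ q : Place k F, vo q D0 ≤ q.ord (β i) := by
  classical
  have hff := h.ff
  have hD00 : D0 ≠ 0 := by
    rintro rfl
    simp at hD0
  have hext : ∀ β : F, D (β : L) = ((D0 β : F) : L) := by
    intro β
    obtain ⟨r, hr1, hr2⟩ := ratio' (K := L) hx β
    have h1 := hr1 D0
    have h2 := hr2 D
    change D (β : L) = (r : L) * D (x : L) at h2
    rw [hDx, mul_one] at h2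
    rw [hD0, mul_one] at h1
    rw [h2, h1]
  obtain ⟨E, hE⟩ : ∃ E : Place k F →₀ ℤ, ∀ P, - E P = vo P D0 := by
    refine ⟨Finsupp.ofSupportFinite (fun P => - vo P D0) ?_, fun P => ?_⟩
    · refine (vo_finite hD00).subset fun P hP => ?_
      have h1 : - vo P D0 ≠ 0 := hP
      show vo P D0 ≠ 0
      omega
    · change - - vo P D0 = vo P D0
      omega
  obtain ⟨s, β, hs, hβ⟩ := h.mem_span E z (fun w hw => by
      right
      obtain ⟨π, hπ0, hπ⟩ := w.surj
      have h1 := hz w π hπ
      have hpres := h.pres w D (fun z hz => by rw [hDM z hz]; exact zero_mem _) (fun β _ => by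
        rw [hext]
        exact Or.inr (hw _).ge)
      have h2 : w.Reg (D π) := hpres π (Or.inr (by
        change 0 ≤ w.ord π
        omega))
      rcases h2 with h2 | h2
      · rw [h2, w.ord_zero] at h1
        exact h1
      · exact h2.trans h1) (fun w q hq => by
      right
      obtain ⟨π, hπ0, hπ⟩ := q.surj
      have h1 := hz w (π : L) (by rw [hq]; exact hπ)
      rw [hext, hq, vo_eq q hπ hD00] at h1
      rw [hE]
      exact h1)
  refine ⟨s, β, hs, fun i hi => ?_⟩
  have h1 := hβ i hi
  rw [mem_LL] at h1
  rcases h1 with h1 | h1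
  · exact Or.inl h1
  · exact Or.inr fun q => by rw [← hE]; exact h1 q

end

end Pool.Agent.K4H25.PC
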