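import Pool.Agent.K4H25.PC.Main
import Pool.Agent.Y172.R2

/-!
The Kodaira dimension of pairs.
-/

set_option autoImplicit false
set_option linter.overlappingInstances false
set_option linter.unusedSectionVars false
set_option maxHeartbeats 4000000
set_option synthInstance.maxHeartbeats 400000

open FF Module Pool.Agent Pool.Agent.W602.GT Filter Pool.Agent.Y172

open scoped Topology

namespace Pool.Agent.K4H25.PC

section

variable {I : Set ℕ} {h : ℕ → ℕ} {M C k n : ℕ}

theorem kappa_ge (hM : 1 ≤ M) (hI : ∀ t, 1 ≤ t → t * M ∈ I)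
    (hlow : ∀ t, 1 ≤ t → t ^ k ≤ h (t * M)) (hup : ∀ m ∈ I, 1 ≤ m → h m ≤ C * m ^ n) :
    k ≤ sSup {k' : ℕ | 0 < limsup (fun m : ℕ => (h m : ENNReal) / (m : ENNReal) ^ k')
      (atTop ⊓ 𝓟 I)} := by
  have hub : ∀ k' ∈ {k' : ℕ | 0 < limsup (fun m : ℕ => (h m : ENNReal) / (m : ENNReal) ^ k')
      (atTop ⊓ 𝓟 I)}, k' ≤ n := by
    intro k' hk'
    by_contra hlt
    push Not at hlt
    have h1 : limsup (fun m : ℕ => (h m : ENNReal) / (m : ENNReal) ^ k') (atTop ⊓ 𝓟 I) ≤ 0 := by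
      have h2 : Tendsto (fun m : ℕ => (C : ENNReal) / (m : ENNReal)) atTop (𝓝 0) := by
        have := ENNReal.Tendsto.const_mul (a := (C : ENNReal)) ENNReal.tendsto_inv_nat_nhds_zero
          (Or.inr (ENNReal.natCast_ne_top C))
        simpa [div_eq_mul_inv] using this
      have h3 : limsup (fun m : ℕ => (C : ENNReal) / (m : ENNReal)) (atTop ⊓ 𝓟 I) ≤ 0 := by
        refine (limsup_le_limsup_of_le inf_le_left).trans ?_
        rw [h2.limsup_eq]
      refine le_trans (limsup_le_limsup ?_) h3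
      rw [EventuallyLE, eventually_inf_principal]
      filter_upwards [eventually_ge_atTop 1] with m hm hmI
      have h4 := hup m hmI hm
      have hm0 : (m : ENNReal) ≠ 0 := by
        have : m ≠ 0 := by omega
        exact_mod_cast this
      have hmt : (m : ENNReal) ≠ ⊤ := ENNReal.natCast_ne_top m
      rw [ENNReal.div_le_iff (pow_ne_zero _ hm0) (ENNReal.pow_ne_top hmt)]
      have h5 : (C : ENNReal) / m * (m : ENNReal) ^ k' = C * (m : ENNReal) ^ (k' - 1) := by
        have e : k' = k' - 1 + 1 := by omega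
        conv_lhs => rw [e, pow_succ']
        rw [← mul_assoc, ENNReal.div_mul_cancel hm0 hmt]
      rw [h5]
      have h6 : h m ≤ C * m ^ (k' - 1) :=
        h4.trans (Nat.mul_le_mul_left _ (Nat.pow_le_pow_right hm (by omega)))
      exact_mod_cast h6
    exact absurd hk' (not_lt.2 h1)
  have hmem : k ∈ {k' : ℕ | 0 < limsup (fun m : ℕ => (h m : ENNReal) / (m : ENNReal) ^ k')
      (atTop ⊓ 𝓟 I)} := by
    have hM0 : (M : ENNReal) ≠ 0 := by
      have : M ≠ 0 := by omega
      exact_mod_cast this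
    have h1 : (((M : ENNReal) ^ k)⁻¹) ≤ limsup (fun m : ℕ => (h m : ENNReal) / (m : ENNReal) ^ k)
        (atTop ⊓ 𝓟 I) := by
      refine le_limsup_of_frequently_le (freq hM hI 1 fun t _ ht => ?_)
      have hm0 : ((t * M : ℕ) : ENNReal) ≠ 0 := by
        have : t * M ≠ 0 := by positivity
        exact_mod_cast this
      rw [ENNReal.le_div_iff_mul_le (Or.inl (pow_ne_zero _ hm0))
        (Or.inl (ENNReal.pow_ne_top (ENNReal.natCast_ne_top _)))]
      have h2 : ((M : ENNReal) ^ k)⁻¹ * ((t * M : ℕ) : ENNReal) ^ k = (t : ENNReal) ^ k := by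
        rw [Nat.cast_mul, mul_pow, mul_comm ((t : ENNReal) ^ k), ← mul_assoc,
          ENNReal.inv_mul_cancel (pow_ne_zero _ hM0)
            (ENNReal.pow_ne_top (ENNReal.natCast_ne_top _)), one_mul]
      rw [h2]
      exact_mod_cast hlow t ht
    refine lt_of_lt_of_le ?_ h1
    rw [ENNReal.inv_pos]
    exact ENNReal.pow_ne_top (ENNReal.natCast_ne_top _)
  exact le_csSup ⟨n, hub⟩ hmem

end

section

variable {K : Type} [Field K] [Algebra ℂ K] {N n : ℕ} {y : Fin (N + 1) → K}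

/-- The spaces of sections grow at most like `m ^ n`. -/
theorem sec_growth (hy : NormalModel y) (hn : Algebra.trdeg ℂ K = n) {Δ A : Place ℂ K → ℚ}
    (hΔ : Effective y Δ) (hA : Effective y A) (D : Fin n → Derivation ℂ K K) :
    ∃ C : ℕ, ∀ m : ℕ, 1 ≤ m → ∀ (r : ℕ) (f : Fin r → K), LinearIndependent ℂ f →
      (∀ i, ∃ ω, IsSection y n m (m • Δ + A) ω ∧ ω D = f i) → r ≤ C * m ^ n := by
  have hess := hy.ess
  obtain ⟨Z, E, hZ, -⟩ := exists_crd (k := ℂ) (K := K) hn
  obtain ⟨S, hS⟩ := sec_fin hy hΔ hA D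
  obtain ⟨C, hC⟩ := growth hZ (fd_basis hZ) S
    (fun m => {f | ∃ ω, IsSection y n m (m • Δ + A) ω ∧ ω D = f}) (fun P => by
      obtain ⟨C, hC⟩ := sec_all hy hΔ hA D P
      refine ⟨C, fun m hm f hf => ?_⟩
      obtain ⟨ω, h1, h2⟩ := hf
      rw [← h2]
      exact hC m hm ω h1) (fun P hP m hm f hf => by
      obtain ⟨ω, h1, h2⟩ := hf
      rw [← h2]
      exact hS P hP m hm ω h1)
  exact ⟨C, fun m hm r f hf h => hC m hm r f hf h⟩

theorem isSection_of {m : ℕ} (hy : NormalModel y) (hn : Algebra.trdeg ℂ K = n)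
    {Δ : Place ℂ K → ℚ} (hΔ : Effective y Δ) {ω : (Fin n → Derivation ℂ K K) → K}
    (hω : LogSec ℂ K n m (fun _ => False) ω) : IsSection y n m (m • Δ) ω := by
  refine ⟨hω.1, fun P hP E hE => ?_⟩
  have h1 := hω.2.2 P (hP.divisorial hy hn) (fun h => h) E hE
  rcases h1 with h1 | h1
  · exact Or.inl h1
  · right
    have h2 := hΔ.1 P hP
    have h3 : (0 : ℚ) ≤ P.ord (ω E) := by exact_mod_cast h1
    have h4 : (m • Δ) P = m * Δ P := by rw [Pi.smul_apply, nsmul_eq_mul]
    rw [h4]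
    have h5 : (0 : ℚ) ≤ m * Δ P := by positivity
    linarith

/-- **The Kodaira dimension of a pair.** -/
theorem kodairaDim_ge {k : ℕ} (hy : NormalModel y) (hn : Algebra.trdeg ℂ K = n)
    {Δ : Place ℂ K → ℚ} (hΔ : Effective y Δ) (hk : KodGe ℂ K n (fun _ => False) k) :
    (k : WithBot ℕ) ≤ kodairaDim y n Δ := by
  classical
  obtain ⟨m0, hm0, ω, hω', E, hE, hind⟩ := hk
  have hω : ∀ j, IsSection y n m0 (m0 • Δ) (ω j) := fun j => isSection_of hy hn hΔ (hω' j)
  obtain ⟨yc, D, hyc, hDc⟩ := exists_crd (k := ℂ) (K := K) hn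
  have hD : IsFrame D := fun G =>
    ⟨fun j => G (yc j), (Pool.Agent.W73.PG.PULL.expand yc hyc D hDc G).symm⟩
  have hzero : Effective y (0 : Place ℂ K → ℚ) :=
    ⟨fun _ _ => le_rfl, Set.finite_empty.subset (by rintro P ⟨-, h⟩; exact h rfl)⟩
  obtain ⟨C, hC⟩ := sec_growth hy hn hΔ hzero D
  simp only [add_zero] at hC
  -- a common denominator
  obtain ⟨d0, hd0, hint⟩ : ∃ d0 : ℕ, 1 ≤ d0 ∧ ∀ t : ℕ, Integral y ((t * d0) • Δ) := by
    let S := hΔ.2.toFinset
    refine ⟨∏ P ∈ S, (Δ P).den, Nat.pos_of_ne_zero (Finset.prod_ne_zero_iff.2 fun P _ =>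
      (Δ P).den_ne_zero), fun t P hP => ?_⟩
    by_cases h0 : Δ P = 0
    · exact ⟨0, by simp [h0]⟩
    have hPS : P ∈ S := by
      rw [Set.Finite.mem_toFinset]
      exact ⟨hP, h0⟩
    refine ⟨t * (∏ Q ∈ S.erase P, (Δ Q).den : ℕ) * (Δ P).num, ?_⟩
    rw [← Finset.prod_erase_mul _ _ hPS]
    have h1 : ((Δ P).den : ℚ) * Δ P = (Δ P).num := by
      rw [mul_comm]
      exact Rat.mul_den_eq_num (Δ P)
    simp only [Pi.smul_apply, nsmul_eq_mul]
    push_cast
    rw [← h1]
    ring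
  -- the lower bound
  obtain ⟨M, hM⟩ : ∃ M : ℕ, M = (k + 1) * d0 * m0 := ⟨_, rfl⟩
  have hM1 : 1 ≤ M := by
    rw [hM]
    exact Nat.mul_pos (Nat.mul_pos (Nat.succ_pos k) hd0) hm0
  have hlow : ∀ t : ℕ, 1 ≤ t → t ^ k ≤ h0 y n (t * M) ((t * M) • Δ) := by
    intro t ht
    have htM : 1 ≤ t * M := Nat.mul_pos ht hM1
    obtain ⟨hfin, -⟩ := finite_h0 hD (hC (t * M) htM)
    let T := (k + 1) * d0 * t
    let b : (Fin k → Fin (t + 1)) → Fin (k + 1) → ℕ := fun a =>
      Fin.cons (T - ∑ i, (a i : ℕ)) fun i => (a i : ℕ)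
    have hle : ∀ a : Fin k → Fin (t + 1), ∑ i, (a i : ℕ) ≤ T := by
      intro a
      have h1 : ∑ i, (a i : ℕ) ≤ ∑ _i : Fin k, t :=
        Finset.sum_le_sum fun i _ => Nat.lt_succ_iff.1 (a i).2
      rw [Finset.sum_const, Finset.card_univ, Fintype.card_fin, smul_eq_mul] at h1
      refine h1.trans ?_
      have h2 : k * t ≤ (k + 1) * d0 * t :=
        Nat.mul_le_mul_right _ ((Nat.le_succ k).trans (Nat.le_mul_of_pos_right _ hd0))
      exact h2
    have hsum : ∀ a, ∑ i, b a i = T := by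
      intro a
      rw [Fin.sum_univ_succ]
      simp only [b, Fin.cons_zero, Fin.cons_succ]
      exact Nat.sub_add_cancel (hle a)
    let v : (Fin k → Fin (t + 1)) → (Fin n → Derivation ℂ K K) → K := fun a E =>
      ∏ i, ω i E ^ b a i
    have hv : ∀ a, IsSection y n (t * M) ((t * M) • Δ) (v a) := by
      intro a
      have h1 := isSection_prod hω (b a)
      rw [hsum] at h1
      have e1 : T * m0 = t * M := by
        rw [hM]
        ring
      rw [e1, smul_smul, e1] at h1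
      exact h1
    have hvE : ∀ a, v a E = ω 0 E ^ T * ∏ i : Fin k, (ω i.succ E / ω 0 E) ^ (a i : ℕ) := by
      intro a
      change ∏ i, ω i E ^ b a i = _
      rw [Fin.prod_univ_succ]
      simp only [b, Fin.cons_zero, Fin.cons_succ, div_pow, Finset.prod_div_distrib]
      have h1 : ω 0 E ^ T = ω 0 E ^ (T - ∑ i, (a i : ℕ)) * ∏ i, ω 0 E ^ (a i : ℕ) := by
        rw [Finset.prod_pow_eq_pow_sum, ← pow_add, Nat.sub_add_cancel (hle a)]
      rw [h1]
      have h2 : ∏ i, ω 0 E ^ (a i : ℕ) ≠ 0 := Finset.prod_ne_zero_iff.2 fun i _ => pow_ne_zero _ hE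
      field_simp
    have hvind : LinearIndependent ℂ v := by
      have h1 : LinearIndependent ℂ fun a : Fin k → Fin (t + 1) =>
          ∏ i : Fin k, (ω i.succ E / ω 0 E) ^ (a i : ℕ) :=
        (mono_indep hind).comp (fun (a : Fin k → Fin (t + 1)) i => (a i : ℕ)) (by
          intro a a' h
          funext i
          exact Fin.ext (congrFun h i))
      have h2 : LinearIndependent ℂ fun a => v a E := by
        have h3 := h1.map' (LinearMap.mulLeft ℂ (ω 0 E ^ T)) (by
          rw [LinearMap.ker_eq_bot]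
          exact fun a b hab => mul_left_cancel₀ (pow_ne_zero _ hE) hab)
        have h4 : (fun a => v a E) = (LinearMap.mulLeft ℂ (ω 0 E ^ T)) ∘
            fun a : Fin k → Fin (t + 1) => ∏ i : Fin k, (ω i.succ E / ω 0 E) ^ (a i : ℕ) := by
          funext a
          exact hvE a
        rw [h4]
        exact h3
      exact LinearIndependent.of_comp (LinearMap.proj E) h2
    have h1 := le_h0 hfin hvind hv
    rw [Fintype.card_fun, Fintype.card_fin, Fintype.card_fin] at h1
    exact (Nat.pow_le_pow_left (Nat.le_succ t) k).trans h1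
  have hint0 : ∀ t : ℕ, Integral y ((t * M) • Δ) := by
    intro t P hP
    obtain ⟨z, hz⟩ := hint (t * (k + 1) * m0) P hP
    refine ⟨z, ?_⟩
    have e1 : t * M = t * (k + 1) * m0 * d0 := by
      rw [hM]
      ring
    rw [e1, hz]
  unfold kodairaDim
  rw [if_neg]
  · refine WithBot.coe_le_coe.2 ?_
    exact kappa_ge (I := {m : ℕ | 1 ≤ m ∧ Integral y (m • Δ)})
      (h := fun m => h0 y n m (m • Δ)) (C := C) (n := n) hM1
      (fun t ht => ⟨Nat.mul_pos ht hM1, hint0 t⟩) hlow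
      fun m _ hm => (finite_h0 hD (hC m hm)).2
  · intro hcon
    have h1 := hcon (1 * M) (by omega) (hint0 1)
    have h2 := hlow 1 le_rfl
    rw [h1, one_pow] at h2
    omega

/-- **Pairs of general type.** -/
theorem dims_general (hy : NormalModel y) (hn : Algebra.trdeg ℂ K = n)
    {Δ : Place ℂ K → ℚ} (hΔ : Effective y Δ) (hk : KodGe ℂ K n (fun _ => False) n) :
    kodairaDim y n Δ = (n : WithBot ℕ) ∧
      ∀ A, Effective y A → Integral y A → numericalDim y n Δ A = (n : EReal) := by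
  obtain ⟨m0, hm0, ω, hω', E, hE, hind⟩ := hk
  obtain ⟨yc, D, hyc, hDc⟩ := exists_crd (k := ℂ) (K := K) hn
  have hD : IsFrame D := fun G =>
    ⟨fun j => G (yc j), (Pool.Agent.W73.PG.PULL.expand yc hyc D hDc G).symm⟩
  exact dims hΔ hD (fun A hA => sec_growth hy hn hΔ hA D) hm0
    (fun j => isSection_of hy hn hΔ (hω' j)) hE hind

end

end Pool.Agent.K4H25.PC
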