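import Pool.Agent.K4H25.PC.Cst
import Pool.Agent.TH466.QG.Equiv

/-!
The regular differentials of the fibres of a product of curves.
-/

set_option autoImplicit false
set_option linter.overlappingInstances false
set_option linter.unusedSectionVars false
set_option maxHeartbeats 4000000
set_option synthInstance.maxHeartbeats 400000

open Polynomial FF IntermediateField Pool.Agent.W603.LV Pool.Agent.W619.PQ Pool.Agent.W619.TW
open Pool.Agent.W602.GT (Divisorial RegAt IsPluri)
open Pool.Agent.TH466.QG (pullPl)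

namespace Pool.Agent.K4H25.PC

theorem isFF_equiv {k F F' : Type} [Field k] [Field F] [Field F'] [Algebra k F] [Algebra k F']
    (e : F ≃ₐ[k] F') (h : IsFF k F) : IsFF k F' :=
  ⟨(Algebra.EssFiniteType.iff_of_algEquiv e).1 h.ess, by rw [← h.trdeg]; exact e.symm.trdeg_eq⟩

section

variable {K F Λ : Type} [Field K] [Algebra ℂ K] [Field Λ] [Algebra ℂ Λ] [Field F]
  [Algebra Λ F] [Algebra ℂ F] [IsScalarTower ℂ Λ F]

/-- The base change of a curve to the field `Λ`. -/
theorem cur_base {B C0 : IntermediateField ℂ K} (h : Cur B C0) (φ : K →ₐ[ℂ] F)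
    (hgen : IntermediateField.adjoin Λ (Set.range φ) = ⊤)
    (hBΛ : ∀ z ∈ B, ∃ a : Λ, algebraMap Λ F a = φ z)
    (htr : ∀ z : K, ¬ IsAlgebraic B z → Transcendental Λ (φ z)) :
    Cur (IsScalarTower.toAlgHom ℂ Λ F).fieldRange (C0.map φ) := by
  refine ⟨isFF_equiv (C0.equivMap φ) h.ff, ?_, ?_⟩
  · rintro ⟨_, c, hc, rfl⟩ hx
    change Transcendental _ (φ c)
    have h1 : Transcendental ℂ (⟨c, hc⟩ : C0) := by
      intro h1
      exact hx (h1.algHom (C0.equivMap φ).toAlgHom)
    have h2 := htr c (h.tr ⟨c, hc⟩ h1)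
    intro halg
    apply h2
    have hρ : ∀ z : (IsScalarTower.toAlgHom ℂ Λ F).fieldRange, ∃ a : Λ,
        algebraMap Λ F a = (z : F) := fun z => z.2
    choose ρ0 hρ0 using hρ
    have hinj := (algebraMap Λ F).injective
    let ρ : (IsScalarTower.toAlgHom ℂ Λ F).fieldRange →+* Λ :=
      { toFun := ρ0
        map_one' := hinj (by rw [hρ0, map_one]; rfl)
        map_mul' := fun a b => hinj (by rw [hρ0, map_mul, hρ0, hρ0]; rfl)
        map_zero' := hinj (by rw [hρ0, map_zero]; rfl)
        map_add' := fun a b => hinj (by rw [hρ0, map_add, hρ0, hρ0]; rfl) }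
    refine halg.ringHom_of_comp_eq ρ (RingHom.id F) ρ.injective ?_
    ext z
    exact hρ0 z
  · rw [eq_top_iff]
    intro z _
    have hz : z ∈ IntermediateField.adjoin Λ (Set.range φ) := by
      rw [hgen]
      trivial
    have hK : ∀ y : K, φ y ∈ (IsScalarTower.toAlgHom ℂ Λ F).fieldRange ⊔ C0.map φ := by
      intro y
      have h1 : (B ⊔ C0).map φ ≤ (IsScalarTower.toAlgHom ℂ Λ F).fieldRange ⊔ C0.map φ := by
        rw [IntermediateField.map_sup, sup_le_iff]
        refine ⟨?_, le_sup_right⟩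
        rintro _ ⟨b, hb, rfl⟩
        obtain ⟨a, ha⟩ := hBΛ b hb
        exact le_sup_left (α := IntermediateField ℂ F) (by
          change φ b ∈ (IsScalarTower.toAlgHom ℂ Λ F).fieldRange
          rw [← ha]
          exact ⟨a, rfl⟩)
      apply h1
      rw [h.sup]
      exact ⟨y, trivial, rfl⟩
    induction hz using IntermediateField.adjoin_induction with
    | mem y hy =>
      obtain ⟨c, rfl⟩ := hy
      exact hK c
    | algebraMap a => exact le_sup_left (α := IntermediateField ℂ F) ⟨a, rfl⟩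
    | add a b _ _ ha hb => exact add_mem (ha trivial) (hb trivial)
    | inv a _ ha => exact inv_mem (ha trivial)
    | mul a b _ _ ha hb => exact mul_mem (ha trivial) (hb trivial)

/-- **The regular differentials of the fibre.** -/
theorem fib_span (hFF : IsFF Λ F) [CharZero Λ] [IsAlgClosed Λ] {B C0 : IntermediateField ℂ K} (h : Cur B C0) (φ : K →ₐ[ℂ] F)
    (hgen : IntermediateField.adjoin Λ (Set.range φ) = ⊤)
    (hBΛ : ∀ z ∈ B, ∃ a : Λ, algebraMap Λ F a = φ z)
    (htr : ∀ z : K, ¬ IsAlgebraic B z → Transcendental Λ (φ z)) {x : C0}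
    {D0 : Derivation ℂ C0 C0} (hD0 : D0 x = 1) {m : ℕ} {s : Fin m → C0}
    (hs : ∀ f : C0, f ≠ 0 → (∀ P : Place ℂ C0, vo P D0 ≤ P.ord f) →
        ∃ c : Fin m → ℂ, f = ∑ a, c a • s a) {D : Derivation Λ F F} (hD : D ≠ 0)
    {f : F} (hf : ∀ Q : Place Λ F, vo Q D ≤ Q.ord f) :
    f ∈ Submodule.span Λ (Set.range fun j => φ (s j) * D (φ x)) := by
  classical
  have hff := h.ff
  have hcur := cur_base h φ hgen hBΛ htr
  have hff' := hcur.ff
  obtain ⟨V, hV⟩ : ∃ V : Submodule Λ F, V = Submodule.span Λ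
    (Set.range fun j => φ (s j) * D (φ x)) := ⟨_, rfl⟩
  rw [← hV]
  by_cases hf0 : f = 0
  · rw [hf0]
    exact V.zero_mem
  have hx := transcendental_of_der hD0
  have hxΛ : Transcendental Λ (φ x) := htr _ (h.tr x hx)
  have hDx := der_ne_zero hD hxΛ
  -- the curve in `F`
  obtain ⟨e, he⟩ : ∃ e : C0 ≃ₐ[ℂ] (C0.map φ), ∀ c, ((e c : C0.map φ) : F) = φ c :=
    ⟨C0.equivMap φ, fun c => rfl⟩
  have hxe : Transcendental ℂ (e x) := by
    intro h1
    apply hx
    have h2 := h1.algHom e.symm.toAlgHom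
    change IsAlgebraic ℂ (e.symm (e x)) at h2
    rwa [AlgEquiv.symm_apply_apply] at h2
  obtain ⟨D0', hD0'⟩ : ∃ D0' : Derivation ℂ (C0.map φ) (C0.map φ), ∀ c, D0' (e c) = e (D0 c) := by
    refine ⟨Pool.Agent.TH466.QG.pushD e D0, fun c => ?_⟩
    rw [Pool.Agent.TH466.QG.pushD_apply, AlgEquiv.symm_apply_apply]
  have hD0'x : D0' (e x) = 1 := by rw [hD0', hD0, map_one]
  have hD00 : D0 ≠ 0 := by
    rintro rfl
    simp at hD0
  have hD00' : D0' ≠ 0 := by
    rintro rfl
    simp at hD0'x
  -- the derivation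
  let D1 : Derivation ℂ F F := ((D (φ x))⁻¹ • D).restrictScalars ℂ
  have hD1 : ∀ z, D1 z = (D (φ x))⁻¹ * D z := fun z => rfl
  obtain ⟨S, β, hS, hβ⟩ := cur_reg_span hcur (x := e x) (D0 := D0') hD0'x hxe (D := D1)
    (by
      rintro _ ⟨a, rfl⟩
      change D1 (algebraMap Λ F a) = 0
      rw [hD1, D.map_algebraMap, mul_zero]) (by
      rw [he, hD1, inv_mul_cancel₀ hDx]) (z := f * (D (φ x))⁻¹) (by
      intro w π hπ
      let w' : Place Λ F :=
        { ord := w.ord
          ord_zero := w.ord_zero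
          ord_mul := w.ord_mul
          ord_add := w.ord_add
          ord_const := fun {c} hc => by
            have h1 : algebraMap Λ F c = algebraMap (IsScalarTower.toAlgHom ℂ Λ F).fieldRange F
              ⟨algebraMap Λ F c, ⟨c, rfl⟩⟩ := rfl
            rw [h1]
            refine w.ord_const fun h2 => hc ?_
            have h3 : algebraMap Λ F c = 0 := congrArg Subtype.val h2
            exact (map_eq_zero _).1 h3
          surj := w.surj }
      have hπ' : w'.ord π = 1 := hπ
      have h1 := hf w'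
      have h2 := vo_eq w' hπ' hD
      have h3 := (ord_der w' hD (f := π) (by omega)).1
      have h4 : w.ord (D π) ≤ w.ord f := by
        change w'.ord (D π) ≤ w'.ord f
        omega
      rw [hD1, w.ord_mul (inv_ne_zero hDx) h3, w.ord_mul hf0 (inv_ne_zero hDx)]
      omega)
  have h1 : f = ∑ i ∈ S, ((Module.Basis.ofVectorSpace ℂ
      (IsScalarTower.toAlgHom ℂ Λ F).fieldRange i : _) : F) * ((β i : F) * D (φ x)) := by
    have h2 : f = (f * (D (φ x))⁻¹) * D (φ x) := by
      field_simp
    rw [h2, hS, Finset.sum_mul]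
    refine Finset.sum_congr rfl fun i _ => ?_
    ring
  rw [h1]
  refine V.sum_mem fun i hi => ?_
  obtain ⟨a, ha⟩ := (Module.Basis.ofVectorSpace ℂ (IsScalarTower.toAlgHom ℂ Λ F).fieldRange i).2
  change algebraMap Λ F a = _ at ha
  rw [← ha, ← Algebra.smul_def]
  refine V.smul_mem _ ?_
  -- the coefficient
  rcases hβ i hi with h2 | h2
  · rw [h2]
    have h3 : ((0 : C0.map φ) : F) = 0 := rfl
    rw [h3, zero_mul]
    exact V.zero_mem
  · by_cases hβ0 : β i = 0
    · rw [hβ0]
      have h3 : ((0 : C0.map φ) : F) = 0 := rfl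
      rw [h3, zero_mul]
      exact V.zero_mem
    obtain ⟨c, hc⟩ := hs (e.symm (β i)) (by simpa using hβ0) (fun P => by
      obtain ⟨π, hπ0, hπ⟩ := P.surj
      have h3 := h2 (pullPl e.symm P)
      have h4 : (pullPl e.symm P).ord (e π) = 1 := by
        change P.ord (e.symm (e π)) = 1
        rw [AlgEquiv.symm_apply_apply]
        exact hπ
      rw [← vo_eq _ h4 hD00', hD0'] at h3
      rw [← vo_eq P hπ hD00]
      change P.ord (e.symm (e (D0 π))) ≤ P.ord (e.symm (β i)) at h3
      rwa [AlgEquiv.symm_apply_apply] at h3)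
    have h3 : ((β i : C0.map φ) : F) = ∑ a, algebraMap Λ F (algebraMap ℂ Λ (c a)) * φ (s a) := by
      have h4 : β i = e (∑ a, c a • s a) := by
        rw [← hc, AlgEquiv.apply_symm_apply]
      rw [h4, he]
      have h5 : φ ((∑ a, c a • s a : C0) : K) = ∑ a, φ ((c a • s a : C0) : K) := by
        rw [← map_sum]
        congr 1
        exact map_sum C0.val _ _
      rw [h5]
      refine Finset.sum_congr rfl fun a _ => ?_
      have h6 : ((c a • s a : C0) : K) = algebraMap ℂ K (c a) * (s a : K) := by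
        rw [Algebra.smul_def]
        rfl
      rw [h6, map_mul, φ.commutes, IsScalarTower.algebraMap_apply ℂ Λ F]
    rw [h3, Finset.sum_mul]
    refine V.sum_mem fun a _ => ?_
    rw [mul_assoc, ← Algebra.smul_def]
    refine V.smul_mem _ ?_
    rw [hV]
    exact Submodule.subset_span ⟨a, rfl⟩

end

end Pool.Agent.K4H25.PC
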