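import Pool.Agent.K4H25.PC.Sys

/-!
Products of functions on the factors separate points.
-/

set_option autoImplicit false
set_option linter.unusedSectionVars false
set_option linter.overlappingInstances false

open Module

namespace Pool.Agent.K4H25.PC

/-- The functions `g a` separate a point from at most `M` points which differ from it in one of the
coordinates in `X`. -/
def SepFam {F κ : Type} [Field F] [Algebra ℂ F] (M : ℕ) (X : Set F) (g : κ → F) : Prop :=
  ∀ (Ω ι : Type) [Field Ω] [DecidableEq ι] (S : Finset ι) (c : ι → Ω) (φ : ι → (F →+* Ω)) (s0 : ι),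
    (∀ s s' (z : ℂ), φ s (algebraMap ℂ F z) = φ s' (algebraMap ℂ F z)) → s0 ∉ S → S.card ≤ M →
    (∀ s ∈ S, ∃ z ∈ X, φ s z ≠ φ s0 z) →
    (∀ a, c s0 * φ s0 (g a) + ∑ s ∈ S, c s * φ s (g a) = 0) → c s0 = 0

theorem SepFam.exists_comb {F κ : Type} [Field F] [Algebra ℂ F] [Fintype κ] {M : ℕ} {X : Set F}
    {g : κ → F} (hg : SepFam M X g) {Ω ι : Type} [Field Ω] [DecidableEq ι] {S : Finset ι}
    {φ : ι → (F →+* Ω)} {s0 : ι}
    (hφ : ∀ s s' (z : ℂ), φ s (algebraMap ℂ F z) = φ s' (algebraMap ℂ F z)) (hs0 : s0 ∉ S)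
    (hS : S.card ≤ M) (hX : ∀ s ∈ S, ∃ z ∈ X, φ s z ≠ φ s0 z) :
    ∃ w : κ → Ω, (∀ s ∈ S, ∑ a, w a * φ s (g a) = 0) ∧ ∑ a, w a * φ s0 (g a) ≠ 0 := by
  classical
  obtain ⟨v, hv⟩ : ∃ v : ι → κ → Ω, v = fun s a => φ s (g a) := ⟨_, rfl⟩
  have h1 : v s0 ∉ Submodule.span Ω (v '' (S : Set ι)) := by
    intro h
    rw [Submodule.mem_span_image_finset_iff_exists_fun'] at h
    obtain ⟨c, hc⟩ := h
    have h2 := hg Ω ι S (fun s => if s = s0 then -1 else c s) φ s0 hφ hs0 hS hX (fun a => by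
      have h3 := congrFun hc a
      rw [Finset.sum_apply] at h3
      rw [if_pos rfl]
      have h4 : ∑ s ∈ S, (if s = s0 then (-1 : Ω) else c s) * φ s (g a) =
          ∑ s ∈ S, (c s • v s) a := by
        refine Finset.sum_congr rfl fun s hs => ?_
        rw [if_neg (fun e : s = s0 => hs0 (e ▸ hs)), hv]
        rfl
      rw [h4, h3, hv]
      ring)
    rw [if_pos rfl] at h2
    exact one_ne_zero (neg_eq_zero.1 h2)
  obtain ⟨f, hf1, hf2⟩ := Submodule.exists_le_ker_of_notMem h1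
  have h2 : ∀ u : κ → Ω, f u = ∑ a, f (Pi.single a 1) * u a := by
    intro u
    rw [LinearMap.pi_apply_eq_sum_univ f u]
    refine Finset.sum_congr rfl fun a _ => ?_
    rw [smul_eq_mul, mul_comm]
    congr 2
    ext b
    simp [Pi.single_apply, eq_comm]
  refine ⟨fun a => f (Pi.single a 1), fun s hs => ?_, ?_⟩
  · have h3 : f (v s) = 0 := hf2 (Submodule.subset_span ⟨s, hs, rfl⟩)
    rw [h2, hv] at h3
    exact h3
  · intro h3
    apply hf1
    rw [h2, hv]
    exact h3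

/-- Products of functions on the factors. -/
theorem sepSys_prod {F : Type} [Field F] [Algebra ℂ F] {N q : ℕ} {β : Fin N → Fin q}
    {M : Fin q → ℕ} {x : Fin N → F} {κ : Fin q → Type} [∀ p, Fintype (κ p)]
    {g : ∀ p, κ p → F} (hg : ∀ p, SepFam (M p) (x '' {j | β j = p}) (g p)) :
    SepSys β M x (fun a : (∀ p, κ p) => ∏ p, g p (a p)) := by
  classical
  intro Ω ι _ _ S c φ hφ hrel s0 hs0 l hl hM
  have h1 : ∀ p, ∃ w : κ p → Ω, (∀ s ∈ (Finset.univ.filter fun s : {s // s ∈ S.erase s0} =>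
      β (l s) = p).map (Function.Embedding.subtype _), ∑ a, w a * φ s (g p a) = 0) ∧
      ∑ a, w a * φ s0 (g p a) ≠ 0 := by
    intro p
    refine (hg p).exists_comb hφ ?_ ?_ ?_
    · intro h
      obtain ⟨s, -, hs⟩ := Finset.mem_map.1 h
      have h2 : (s : ι) = s0 := hs
      exact Finset.ne_of_mem_erase s.2 h2
    · rw [Finset.card_map]
      exact hM p
    · intro s hs
      obtain ⟨s', hs', rfl⟩ := Finset.mem_map.1 hs
      exact ⟨_, ⟨l s', (Finset.mem_filter.1 hs').2, rfl⟩, hl s'⟩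
  choose w hw1 hw2 using h1
  have h2 : ∑ s ∈ S, c s * ∏ p, ∑ a, w p a * φ s (g p a) = 0 := by
    have h3 : ∀ s ∈ S, c s * ∏ p, ∑ a, w p a * φ s (g p a) =
        ∑ a : (∀ p, κ p), (∏ p, w p (a p)) * (c s * φ s (∏ p, g p (a p))) := by
      intro s _
      rw [Finset.prod_univ_sum, Finset.mul_sum, Fintype.piFinset_univ]
      refine Finset.sum_congr rfl fun a _ => ?_
      rw [Finset.prod_mul_distrib, map_prod]
      ring
    rw [Finset.sum_congr rfl h3, Finset.sum_comm]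
    refine Finset.sum_eq_zero fun a _ => ?_
    rw [← Finset.mul_sum, hrel a, mul_zero]
  rw [← Finset.add_sum_erase S _ hs0, Finset.sum_eq_zero, add_zero] at h2
  · refine (mul_eq_zero.1 h2).resolve_right ?_
    rw [Finset.prod_eq_zero_iff]
    push Not
    exact fun p _ => hw2 p
  · intro s hs
    apply mul_eq_zero_of_right
    refine Finset.prod_eq_zero (Finset.mem_univ (β (l ⟨s, hs⟩))) ?_
    exact hw1 _ s (Finset.mem_map.2 ⟨⟨s, hs⟩, Finset.mem_filter.2 ⟨Finset.mem_univ _, rfl⟩, rfl⟩)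

end Pool.Agent.K4H25.PC
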