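import Pool.Agent.K4H25.PC.Dual

/-!
Regular differentials on a curve of large gonality separate points.
-/

set_option autoImplicit false
set_option linter.overlappingInstances false
set_option linter.unusedSectionVars false
set_option maxHeartbeats 4000000
set_option synthInstance.maxHeartbeats 400000

open Polynomial FF IsDedekindDomain IntermediateField

namespace Pool.Agent.K4H25.PC

open Pool.Agent.W603.LV Pool.Agent.W619.PQ

section

variable {k F : Type*} [Field k] [Field F] [Algebra k F] [CharZero k] [IsFF k F] [IsAlgClosed k]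

/-- the functional vanishes on functions with poles in `S`: the differential vanishes on `S` -/
theorem mult_vanish {x : F} (hx : Transcendental k x) [DecidableEq (Place k F)]
    (S : Finset (Place k F)) (lam : F →ₗ[k] k) (hI : ∀ y ∈ BI (k := k) x, lam y = 0)
    (hS : ∀ y ∈ BS x S, lam y = 0) {f : F} (hf0 : f ≠ 0)
    (hf : ∀ y, iota hx (Algebra.trace k⟮x⟯ F (f * y)) = SS lam hI y) {P : Place k F}
    (hPS : P ∈ S) (hP : P.ord x < 0) : 2 ≤ P.ord (x * f) := by
  classical
  have hfin := IsFF.finite hx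
  have hx0 : x ≠ 0 := by
    rintro rfl
    exact hx isAlgebraic_zero
  by_contra hcon
  push Not at hcon
  let xx : k⟮x⟯ := ⟨x, mem_adjoin_simple_self k x⟩
  obtain ⟨e0, q, hq⟩ := exists_over (K := k⟮x⟯) P ⟨xx, by
    change P.ord x ≠ 0; omega⟩
  have hfs := finite_support (k := k) x
  have hqx : q.ord xx < 0 := by
    have h1 := hq.2 xx
    have h2 : P.ord (algebraMap k⟮x⟯ F xx) = P.ord x := rfl
    have h3 := hq.1
    by_contra hcon
    push Not at hcon
    have : (0 : ℤ) ≤ e0 * q.ord xx := by positivity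
    omega
  obtain ⟨π, hπ0, hπ⟩ := P.surj
  obtain ⟨Z, hZ⟩ : ∃ Z : Finset (Place k F), Z = hfs.toFinset.filter fun w => w.ord x < 0 :=
    ⟨_, rfl⟩
  have hmemZ : ∀ w, w ∈ Z ↔ w.ord x < 0 := by
    intro w
    rw [hZ, Finset.mem_filter, hfs.mem_toFinset]
    refine ⟨fun h => h.2, fun h => ⟨?_, h⟩⟩
    show w.ord x ≠ 0
    omega
  obtain ⟨u, hu1, hu2⟩ := approx_one (Z.erase P) P (by simp) π⁻¹ 0
  have hπi : P.ord π⁻¹ = -1 := by rw [P.ord_inv, hπ]
  have hu : u ≠ 0 ∧ P.ord u = -1 := by
    by_cases h3 : u - π⁻¹ = 0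
    · rw [sub_eq_zero.1 h3]
      exact ⟨inv_ne_zero hπ0, hπi⟩
    · have h4 := hu1.resolve_left h3
      have h5 := P.ord_add_eq (f := π⁻¹) (g := u - π⁻¹) (inv_ne_zero hπ0) h3 (by omega)
      rwa [add_sub_cancel, hπi] at h5
  have hxf := mul_ne_zero hx0 hf0
  obtain ⟨b, hb1, hb2⟩ := exists_contra q P e0 hq Z
    (by
      intro w e hw
      have h1 := hw.2 xx
      have h2 : w.ord (algebraMap k⟮x⟯ F xx) = w.ord x := rfl
      have h3 := hw.1
      have h4 : (e : ℤ) * q.ord xx < 0 := mul_neg_of_pos_of_neg (by exact_mod_cast h3) hqx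
      rw [hmemZ]
      omega)
    (x * f * u) (mul_ne_zero hxf hu.1) (by rw [P.ord_mul hxf hu.1, hu.2]; omega)
  apply hb2
  -- the trace
  set r := Algebra.trace k⟮x⟯ F (f * (u * b)) with hr
  have h5 : Algebra.trace k⟮x⟯ F (x * f * u * b) = xx * r := by
    rw [hr, show x * f * u * b = x * (f * (u * b)) by ring]
    exact trace_mul_left xx (f * (u * b))
  rw [h5]
  have h6 : ∀ j : ℤ, j < 2 → (iota hx r).coeff j = 0 := by
    intro j hj
    rw [hf (u * b), SS_coeff]
    apply hS
    intro w hw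
    obtain ⟨n, hn⟩ := Int.eq_ofNat_of_zero_le (show 0 ≤ -(j - 1) by omega)
    have h7 : j - 1 = -(n : ℤ) := by omega
    rw [h7]
    have h8 : Ge w 0 (x ^ (-(n : ℤ))) := by
      right
      rw [w.ord_zpow]
      exact mul_nonneg_of_nonpos_of_nonpos (by omega) (by omega)
    have h9 : Ge w 0 b := hb1 w ((hmemZ w).2 hw)
    have h10 : Ge w (if w ∈ S then -1 else 0) u := by
      by_cases hwP : w = P
      · rw [hwP, if_pos hPS]
        exact Or.inr hu.2.ge
      · have h11 := hu2 w (Finset.mem_erase.2 ⟨hwP, (hmemZ w).2 hw⟩)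
        split_ifs
        · exact h11.mono (by omega)
        · exact h11
    have h11 := h8.mul (h10.mul h9)
    rwa [add_zero, zero_add] at h11
  by_cases hr0 : r = 0
  · left; rw [hr0, mul_zero]
  have h8 : 2 ≤ (iota hx r).order := by
    by_contra hlt
    push Not at hlt
    have h9 := h6 _ hlt
    rw [HahnSeries.coeff_order_eq_zero, map_eq_zero] at h9
    exact hr0 h9
  have h9 := ord_iota hx P hP hr0
  right
  have h12 : P.ord (algebraMap k⟮x⟯ F (xx * r)) = P.ord x + P.ord (r : F) := by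
    rw [map_mul, P.ord_mul _ (by simpa using hr0)]
    · rfl
    · change x ≠ 0; exact hx0
  rw [hq.2] at h12
  have h15 : (iota hx r).order * P.ord x ≤ 2 * P.ord x := by
    apply mul_le_mul_of_nonpos_right h8 hP.le
  have h16 : (0 : ℤ) < e0 * q.ord (xx * r) := by omega
  have h17 := (pos_iff_pos_of_mul_pos h16).1 (by exact_mod_cast hq.1)
  omega

/-- the functional does not vanish on a function `y` with a simple pole at `P`: the differential does
not vanish at `P` -/
theorem mult_nonvanish {x : F} (hx : Transcendental k x) (lam : F →ₗ[k] k)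
    (hI : ∀ y ∈ BI (k := k) x, lam y = 0) {f : F} (hf0 : f ≠ 0)
    (hreg : ∀ P : Place k F, P.ord x < 0 → 1 ≤ P.ord (x * f))
    (hf : ∀ y, iota hx (Algebra.trace k⟮x⟯ F (f * y)) = SS lam hI y) {P : Place k F}
    (hP : P.ord x < 0) {y : F} (hy0 : y ≠ 0) (hyP : P.ord y = -1)
    (hy : ∀ Q : Place k F, Q ≠ P → Q.ord x < 0 → Ge Q 0 y) (hlam : lam y ≠ 0) :
    P.ord (x * f) ≤ 1 := by
  classical
  have hfin := IsFF.finite hx
  have hx0 : x ≠ 0 := by
    rintro rfl
    exact hx isAlgebraic_zero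
  by_contra hcon
  push Not at hcon
  let xx : k⟮x⟯ := ⟨x, mem_adjoin_simple_self k x⟩
  obtain ⟨e0, q, hq⟩ := exists_over (K := k⟮x⟯) P ⟨xx, by
    change P.ord x ≠ 0; omega⟩
  have hfs := finite_support (k := k) x
  have hqx : q.ord xx < 0 := by
    have h1 := hq.2 xx
    have h2 : P.ord (algebraMap k⟮x⟯ F xx) = P.ord x := rfl
    have h3 := hq.1
    by_contra hcon
    push Not at hcon
    have : (0 : ℤ) ≤ e0 * q.ord xx := by positivity
    omega
  have hxf := mul_ne_zero hx0 hf0
  have hover : ∀ (w : Place k F) (e : ℕ), Over w q e → w.ord x < 0 := by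
    intro w e hw
    have h1 := hw.2 xx
    have h2 : w.ord (algebraMap k⟮x⟯ F xx) = w.ord x := rfl
    have h3 := hw.1
    have h4 : (e : ℤ) * q.ord xx < 0 := mul_neg_of_pos_of_neg (by exact_mod_cast h3) hqx
    omega
  obtain ⟨t, ht0, ht⟩ := q.surj
  have hfs' := finite_support (k := k) (t : F)
  have h1 : Ge q 1 (Algebra.trace k⟮x⟯ F (x * f * y)) := by
    refine trace_ge_one q _ (∑ w ∈ hfs'.toFinset, (w.ord (t : F)).natAbs) ?_ ?_
    · intro w e hw
      have h1 := hw.2 t
      have h2 : w.ord (algebraMap k⟮x⟯ F t) = w.ord (t : F) := rfl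
      rw [h2, ht, mul_one] at h1
      have h3 : w ∈ hfs'.toFinset := by
        rw [hfs'.mem_toFinset]
        show w.ord (t : F) ≠ 0
        have := hw.1
        omega
      have h4 := Finset.single_le_sum (f := fun w : Place k F => (w.ord (t : F)).natAbs)
        (fun _ _ => Nat.zero_le _) h3
      have h5 : (w.ord (t : F)).natAbs ≤ ∑ w ∈ hfs'.toFinset, (w.ord (t : F)).natAbs := h4
      omega
    · intro w e hw
      have hwx := hover w e hw
      by_cases hwP : w = P
      · subst hwP
        right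
        rw [w.ord_mul hxf hy0, hyP]
        omega
      · have h2 : Ge w 1 (x * f) := Or.inr (hreg w hwx)
        simpa using h2.mul (hy w hwP hwx)
  set r := Algebra.trace k⟮x⟯ F (f * y) with hr
  have h5 : Algebra.trace k⟮x⟯ F (x * f * y) = xx * r := by
    rw [hr, mul_assoc]
    exact trace_mul_left xx (f * y)
  rw [h5] at h1
  have h6 : (iota hx r).coeff 1 = lam y := by
    rw [hf y, SS_coeff]
    simp
  have hr0 : r ≠ 0 := by
    intro h
    rw [h, map_zero, HahnSeries.coeff_zero] at h6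
    exact hlam h6.symm
  have hxx0 : xx ≠ 0 := by
    intro h
    exact hx0 (congrArg Subtype.val h)
  have h7 := h1.resolve_left (mul_ne_zero hxx0 hr0)
  have h8 : (iota hx r).order ≤ 1 := HahnSeries.order_le_of_coeff_ne_zero (by
    rw [h6]
    exact hlam)
  have h9 := ord_iota hx P hP hr0
  have h12 : P.ord (algebraMap k⟮x⟯ F (xx * r)) = P.ord x + P.ord (r : F) := by
    rw [map_mul, P.ord_mul _ (by simpa using hr0)]
    · rfl
    · change x ≠ 0; exact hx0
  rw [hq.2] at h12
  have h15 : 1 * P.ord x ≤ (iota hx r).order * P.ord x := by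
    apply mul_le_mul_of_nonpos_right h8 hP.le
  have h16 : (0 : ℤ) < e0 * q.ord (xx * r) := by
    have := hq.1
    positivity
  omega

/-- **Separation.** If there is no nonconstant function of degree at most `|S| + 1` then there is a
regular differential which vanishes on `S` but not at `P0`. -/
theorem exists_sep {D : Derivation k F F} (hD : D ≠ 0) (P0 : Place k F) (S : Finset (Place k F))
    (h0 : P0 ∉ S) (hgon : ∀ b : F, Transcendental k b → S.card + 1 < Module.finrank k⟮b⟯ F) :
    ∃ f : F, f ≠ 0 ∧ (∀ P : Place k F, vo P D ≤ P.ord f) ∧ (∀ P ∈ S, vo P D + 1 ≤ P.ord f) ∧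
      P0.ord f = vo P0 D := by
  classical
  obtain ⟨x, hxS⟩ := exists_simple_poles (insert P0 S)
  have hxP0 := hxS P0 (Finset.mem_insert_self _ _)
  have hx : Transcendental k x := P0.transcendental_of_ord_ne (by omega)
  have hDx := der_ne_zero hD hx
  have hfs := finite_support (k := k) x
  obtain ⟨Z, hZ⟩ : ∃ Z : Finset (Place k F), Z = hfs.toFinset.filter fun w => w.ord x < 0 :=
    ⟨_, rfl⟩
  have hmemZ : ∀ w, w ∈ Z ↔ w.ord x < 0 := by
    intro w
    rw [hZ, Finset.mem_filter, hfs.mem_toFinset]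
    refine ⟨fun h => h.2, fun h => ⟨?_, h⟩⟩
    show w.ord x ≠ 0
    omega
  obtain ⟨π, hπ0, hπ⟩ := P0.surj
  obtain ⟨y, hy1, hy2⟩ := approx_one (Z.erase P0) P0 (by simp) π⁻¹ 0
  have hπi : P0.ord π⁻¹ = -1 := by rw [P0.ord_inv, hπ]
  have hy : y ≠ 0 ∧ P0.ord y = -1 := by
    by_cases h3 : y - π⁻¹ = 0
    · rw [sub_eq_zero.1 h3]
      exact ⟨inv_ne_zero hπ0, hπi⟩
    · have h4 := hy1.resolve_left h3
      have h5 := P0.ord_add_eq (f := π⁻¹) (g := y - π⁻¹) (inv_ne_zero hπ0) h3 (by omega)
      rwa [add_sub_cancel, hπi] at h5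
  have hyQ : ∀ Q : Place k F, Q ≠ P0 → Q.ord x < 0 → Ge Q 0 y := fun Q hQ hQx =>
    hy2 Q (Finset.mem_erase.2 ⟨hQ, (hmemZ Q).2 hQx⟩)
  have hnot : y ∉ BB (k := k) x ⊔ BS x S := by
    intro hmem
    obtain ⟨b, hb, c, hc, hbc⟩ := Submodule.mem_sup.1 hmem
    -- the order of b at P0
    have h1 : Ge P0 0 (b - π⁻¹) := by
      have e : b - π⁻¹ = (y - π⁻¹) - c := by rw [← hbc]; ring
      have h2 := hc P0 (by omega)
      rw [if_neg h0] at h2
      rw [e]
      exact hy1.sub h2
    have h2 : b ≠ 0 ∧ P0.ord b = -1 := by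
      by_cases h3 : b - π⁻¹ = 0
      · rw [sub_eq_zero.1 h3]
        exact ⟨inv_ne_zero hπ0, hπi⟩
      · have h4 := h1.resolve_left h3
        have h5 := P0.ord_add_eq (f := π⁻¹) (g := b - π⁻¹) (inv_ne_zero hπ0) h3 (by omega)
        rwa [add_sub_cancel, hπi] at h5
    have hbt : Transcendental k b := P0.transcendental_of_ord_ne (by omega)
    obtain ⟨T, hT, hT2⟩ := poles (k := k) (K := F) hbt
    have h3 : ∀ Q ∈ T, Q ∈ insert P0 S ∧ Q.ord b = -1 := by
      intro Q hQ
      rw [hT] at hQ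
      by_cases hQP : Q = P0
      · rw [hQP]
        exact ⟨Finset.mem_insert_self _ _, h2.2⟩
      rcases lt_or_ge (Q.ord x) 0 with hQx | hQx
      · have e : b = y - c := by rw [← hbc]; ring
        have h4 := hc Q hQx
        by_cases hQS : Q ∈ S
        · rw [if_pos hQS] at h4
          have h5 : Ge Q (-1) b := by
            rw [e]
            exact ((hyQ Q hQP hQx).mono (by omega)).sub h4
          have h6 := h5.resolve_left h2.1
          exact ⟨Finset.mem_insert_of_mem hQS, by omega⟩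
        · rw [if_neg hQS] at h4
          have h5 : Ge Q 0 b := by
            rw [e]
            exact (hyQ Q hQP hQx).sub h4
          have h6 := h5.resolve_left h2.1
          omega
      · have h6 := (hb Q hQx).resolve_left h2.1
        omega
    have h4 : ∑ w ∈ T, (- w.ord b).toNat * w.deg = T.card := by
      rw [Finset.card_eq_sum_ones]
      refine Finset.sum_congr rfl fun w hw => ?_
      rw [(h3 w hw).2, deg_one]
      rfl
    have h5 : T.card ≤ S.card + 1 := by
      rw [← Finset.card_insert_of_notMem h0]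
      exact Finset.card_le_card fun w hw => (h3 w hw).1
    have h6 := hgon b hbt
    omega
  obtain ⟨lam, hlam, hle⟩ := Submodule.exists_le_ker_of_notMem hnot
  have hB : ∀ y ∈ BB (k := k) x, lam y = 0 := fun y hy => hle (Submodule.mem_sup_left hy)
  have hS : ∀ y ∈ BS x S, lam y = 0 := fun y hy => hle (Submodule.mem_sup_right hy)
  have hI : ∀ y ∈ BI (k := k) x, lam y = 0 := by
    intro y hy
    apply hS
    intro P hP
    refine (hy P hP).mono ?_
    split_ifs <;> omega
  have hlam0 : lam ≠ 0 := by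
    rintro rfl
    exact hlam rfl
  obtain ⟨f, hf0, hf⟩ := exists_mult lam hI hx hB hlam0
  have hx0 : x ≠ 0 := hxP0.1
  have hD' : (((D x)⁻¹ • D : Derivation k F F)) x = 1 := by simp [hDx]
  have hDi : ((D x)⁻¹ • D : Derivation k F F) ≠ 0 := by
    intro h
    rw [h] at hD'
    simp at hD'
  have hregf := mult_regular hx ((D x)⁻¹ • D) hD' lam hI hB hf0 hf
  have hvo : ∀ P : Place k F, P.ord x < 0 → vo P ((D x)⁻¹ • D : Derivation k F F) =
      1 - P.ord x := by
    intro P hP
    have h1 := (ord_der P hDi (f := x) (by omega)).2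
    rw [hD', P.ord_one] at h1
    omega
  have hxf : ∀ P : Place k F, P.ord x < 0 → 1 ≤ P.ord (x * f) := by
    intro P hP
    have h1 := hregf P
    rw [hvo P hP] at h1
    rw [P.ord_mul hx0 hf0]
    omega
  have hvD : ∀ P : Place k F, vo P ((D x)⁻¹ • D : Derivation k F F) =
      - P.ord (D x) + vo P D := by
    intro P
    rw [vo_smul P hD (inv_ne_zero hDx), P.ord_inv]
  refine ⟨f * D x, mul_ne_zero hf0 hDx, fun P => ?_, fun P hP => ?_, ?_⟩
  · have h1 := hregf P
    rw [hvD] at h1
    rw [P.ord_mul hf0 hDx]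
    omega
  · have hPx := hxS P (Finset.mem_insert_of_mem hP)
    have h1 := mult_vanish hx S lam hI hS hf0 hf hP (by omega)
    rw [P.ord_mul hx0 hf0] at h1
    have h2 := hvo P (by omega)
    rw [hvD] at h2
    rw [P.ord_mul hf0 hDx]
    omega
  · have h1 := mult_nonvanish hx lam hI hf0 hxf hf (P := P0) (by omega) hy.1 hy.2 hyQ hlam
    have h3 := hxf P0 (by omega)
    rw [P0.ord_mul hx0 hf0] at h1 h3
    have h2 := hvo P0 (by omega)
    rw [hvD] at h2
    rw [P0.ord_mul hf0 hDx]
    omega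

end

end Pool.Agent.K4H25.PC
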