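import Pool.Agent.K4H25.PC.Plc
import Pool.Agent.K4H25.PC.Rr
import Pool.Agent.K4H25.PC.Prod
import Pool.Agent.R885.Ext
import Pool.Agent.W603.LV.Spec

/-!
Regular differentials on a curve of large gonality separate generic points.
-/

set_option autoImplicit false
set_option linter.overlappingInstances false
set_option linter.unusedSectionVars false
set_option maxHeartbeats 4000000
set_option synthInstance.maxHeartbeats 400000

open Polynomial FF IsDedekindDomain IntermediateField

namespace Pool.Agent.K4H25.PC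

open Pool.Agent.W603.LV

section

variable {F : Type} [Field F] [Algebra ℂ F] [IsFF ℂ F]

/-- The regular differentials have a finite generating family. -/
theorem exists_reg_fam {D : Derivation ℂ F F} (hD : D ≠ 0) :
    ∃ (m : ℕ) (g : Fin m → F), (∀ a, g a = 0 ∨ ∀ P : Place ℂ F, vo P D ≤ P.ord (g a)) ∧
      ∀ f : F, f ≠ 0 → (∀ P : Place ℂ F, vo P D ≤ P.ord f) →
        ∃ c : Fin m → ℂ, f = ∑ a, c a • g a := by
  classical
  obtain ⟨E, hE⟩ : ∃ E : Place ℂ F →₀ ℤ, ∀ P, - E P = vo P D := by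
    refine ⟨Finsupp.ofSupportFinite (fun P => - vo P D) ?_, fun P => ?_⟩
    · refine (vo_finite hD).subset fun P hP => ?_
      have h1 : - vo P D ≠ 0 := hP
      show vo P D ≠ 0
      omega
    · change - - vo P D = vo P D
      omega
  have h1 : (LL E).FG := (Submodule.fg_iff_finiteDimensional _).2 (finDim_LL E)
  obtain ⟨m, g, hg⟩ := Submodule.fg_iff_exists_fin_generating_family.1 h1
  refine ⟨m, g, fun a => ?_, fun f hf0 hf => ?_⟩
  · have h2 : g a ∈ LL E := by
      rw [← hg]
      exact Submodule.subset_span ⟨a, rfl⟩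
    rw [mem_LL] at h2
    rcases h2 with h2 | h2
    · exact Or.inl h2
    · exact Or.inr fun P => by rw [← hE]; exact h2 P
  · have h2 : f ∈ Submodule.span ℂ (Set.range g) := by
      rw [hg, mem_LL]
      exact Or.inr fun P => by rw [hE]; exact hf P
    obtain ⟨c, hc⟩ := (Submodule.mem_span_range_iff_exists_fun ℂ).1 h2
    exact ⟨c, hc.symm⟩

/-- **Separation of generic points.** -/
theorem sepFam_of_gonality {M : ℕ}
    (hgon : ∀ b : F, Transcendental ℂ b → M + 1 < Module.finrank ℂ⟮b⟯ F)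
    {D : Derivation ℂ F F} (hD : D ≠ 0) {m : ℕ} {g : Fin m → F}
    (hg : ∀ f : F, f ≠ 0 → (∀ P : Place ℂ F, vo P D ≤ P.ord f) →
        ∃ c : Fin m → ℂ, f = ∑ a, c a • g a) : SepFam M Set.univ g := by
  classical
  intro Ω ι iΩ iι S c φ s0 hφ hs0 hS hX hrel
  by_contra hc0
  let _ : Algebra ℂ Ω := ((φ s0).comp (algebraMap ℂ F)).toAlgebra
  have hφc : ∀ s (z : ℂ), φ s (algebraMap ℂ F z) = algebraMap ℂ Ω z := fun s z => hφ s s0 z
  -- separating functions
  have hX' : ∀ s, ∃ z : F, s ∈ S → φ s z ≠ φ s0 z := by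
    intro s
    by_cases hs : s ∈ S
    · obtain ⟨z, -, hz⟩ := hX s hs
      exact ⟨z, fun _ => hz⟩
    · exact ⟨0, fun h => absurd h hs⟩
  choose z hz using hX'
  -- functions with poles at the bad places
  have hbad := vo_finite hD
  have hpole : ∀ Q : Place ℂ F, ∃ a : F, Q.ord a < 0 := by
    intro Q
    obtain ⟨t, ht0, ht⟩ := Q.surj
    exact ⟨t⁻¹, by rw [Q.ord_inv]; omega⟩
  choose pl hpl using hpole
  obtain ⟨t0, ht0⟩ := IsFF.exists_transcendental (k := ℂ) (K := F)
  -- the coordinate ring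
  obtain ⟨G, hG⟩ : ∃ G : Finset F, G = insert t0 (Finset.univ.image g ∪ S.image z ∪
    hbad.toFinset.image pl) := ⟨_, rfl⟩
  obtain ⟨A, hA⟩ : ∃ A : Subalgebra ℂ F, A = Algebra.adjoin ℂ (G : Set F) := ⟨_, rfl⟩
  have hGA : ∀ a ∈ G, a ∈ A := fun a ha => by
    rw [hA]
    exact Algebra.subset_adjoin (Finset.mem_coe.2 ha)
  -- the ring of the relation
  obtain ⟨H, hH⟩ : ∃ H : Finset Ω, H = insert (c s0)⁻¹ ((insert s0 S).image c ∪
    (insert s0 S).biUnion (fun s => G.image (φ s)) ∪
    S.image (fun s => (φ s (z s) - φ s0 (z s))⁻¹)) := ⟨_, rfl⟩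
  obtain ⟨R, hR⟩ : ∃ R : Subalgebra ℂ Ω, R = Algebra.adjoin ℂ (H : Set Ω) := ⟨_, rfl⟩
  have hHR : ∀ a ∈ H, a ∈ R := fun a ha => by
    rw [hR]
    exact Algebra.subset_adjoin (Finset.mem_coe.2 ha)
  have hfg : Algebra.FiniteType ℂ R := by
    rw [← Subalgebra.fg_iff_finiteType, hR]
    exact ⟨H, rfl⟩
  obtain ⟨π⟩ := Pool.Agent.R885.exists_point ℂ R
  have hφA : ∀ s ∈ insert s0 S, ∀ a ∈ A, φ s a ∈ R := by
    intro s hs a ha
    rw [hA] at ha
    induction ha using Algebra.adjoin_induction with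
    | mem y hy =>
      apply hHR
      rw [hH]
      refine Finset.mem_insert_of_mem (Finset.mem_union_left _ (Finset.mem_union_right _ ?_))
      exact Finset.mem_biUnion.2 ⟨s, hs, Finset.mem_image_of_mem _ (Finset.mem_coe.1 hy)⟩
    | algebraMap r => rw [hφc]; exact R.algebraMap_mem r
    | add y w _ _ hy hw => rw [map_add]; exact add_mem hy hw
    | mul y w _ _ hy hw => rw [map_mul]; exact mul_mem hy hw
  have hcR : ∀ s ∈ insert s0 S, c s ∈ R := by
    intro s hs
    apply hHR
    rw [hH]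
    exact Finset.mem_insert_of_mem (Finset.mem_union_left _ (Finset.mem_union_left _
      (Finset.mem_image_of_mem _ hs)))
  -- the points
  have hplace : ∀ s (hs : s ∈ insert s0 S), ∃ P : Place ℂ F, ∀ a (ha : a ∈ A),
      Ge P 1 (a - algebraMap ℂ F (π ⟨φ s a, hφA s hs a ha⟩)) := by
    intro s hs
    let ψ : A →+* ℂ :=
      { toFun := fun a => π ⟨φ s a, hφA s hs a a.2⟩
        map_one' := by
          rw [← map_one π]
          exact congrArg π (Subtype.ext (map_one (φ s)))
        map_mul' := fun a b => by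
          rw [← map_mul π]
          exact congrArg π (Subtype.ext (map_mul (φ s) _ _))
        map_zero' := by
          rw [← map_zero π]
          exact congrArg π (Subtype.ext (map_zero (φ s)))
        map_add' := fun a b => by
          rw [← map_add π]
          exact congrArg π (Subtype.ext (map_add (φ s) _ _)) }
    have hψc : ∀ w : ℂ, ψ (algebraMap ℂ A w) = w := by
      intro w
      have h1 : π (algebraMap ℂ R w) = w := π.commutes w
      refine Eq.trans ?_ h1
      exact congrArg π (Subtype.ext (hφc s w))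
    have hker : ∀ a : A, a - algebraMap ℂ A (ψ a) ∈ RingHom.ker ψ := by
      intro a
      rw [RingHom.mem_ker, map_sub, hψc, sub_self]
    have ht0A : t0 ∈ A := hGA _ (by rw [hG]; exact Finset.mem_insert_self _ _)
    obtain ⟨P, hP⟩ := exists_place_ideal (k := ℂ) (F := F) A.toSubring (fun w => A.algebraMap_mem w)
      (RingHom.ker ψ) (RingHom.ker_ne_top ψ)
      (x := (⟨t0, ht0A⟩ : A) - algebraMap ℂ A (ψ ⟨t0, ht0A⟩)) (hker _) (by
        intro h
        apply ht0
        have h1 := h.add (isAlgebraic_algebraMap (A := F) (ψ ⟨t0, ht0A⟩))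
        have h2 : (((⟨t0, ht0A⟩ : A) - algebraMap ℂ A (ψ ⟨t0, ht0A⟩) : A) : F) +
          algebraMap ℂ F (ψ ⟨t0, ht0A⟩) = t0 := sub_add_cancel _ _
        rw [← h2]
        exact h1)
    exact ⟨P, fun a ha => hP _ (hker ⟨a, ha⟩)⟩
  choose P hP using hplace
  have hs0' : s0 ∈ insert s0 S := Finset.mem_insert_self _ _
  -- the places are good
  have hregA : ∀ s (hs : s ∈ insert s0 S), ∀ a ∈ A, Ge (P s hs) 0 a := by
    intro s hs a ha
    have h1 := (hP s hs a ha).mono (by omega : (0 : ℤ) ≤ 1)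
    have h2 := h1.add (Ge.const (P := P s hs) (π ⟨φ s a, hφA s hs a ha⟩))
    rwa [sub_add_cancel] at h2
  have hgood : ∀ s (hs : s ∈ insert s0 S), vo (P s hs) D = 0 := by
    intro s hs
    by_contra hne
    have h1 : P s hs ∈ hbad.toFinset := hbad.mem_toFinset.2 hne
    have h2 : pl (P s hs) ∈ A := hGA _ (by
      rw [hG]
      exact Finset.mem_insert_of_mem (Finset.mem_union_right _ (Finset.mem_image_of_mem _ h1)))
    have h3 := hregA s hs _ h2
    have h4 := hpl (P s hs)
    rcases h3 with h3 | h3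
    · rw [h3, (P s hs).ord_zero] at h4
      omega
    · omega
  -- the places are different
  have hdiff : ∀ s (hs : s ∈ S), P s (Finset.mem_insert_of_mem hs) ≠ P s0 hs0' := by
    intro s hs he
    have hzA : z s ∈ A := hGA _ (by
      rw [hG]
      exact Finset.mem_insert_of_mem (Finset.mem_union_left _ (Finset.mem_union_right _
        (Finset.mem_image_of_mem _ hs))))
    have h1 := hP s (Finset.mem_insert_of_mem hs) _ hzA
    have h2 := hP s0 hs0' _ hzA
    rw [he] at h1
    have h3 := h2.sub h1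
    rw [sub_sub_sub_cancel_left, ← map_sub, ← map_sub] at h3
    have h4 := const_zero _ h3
    have h5 : (φ s (z s) - φ s0 (z s))⁻¹ ∈ R := hHR _ (by
      rw [hH]
      exact Finset.mem_insert_of_mem (Finset.mem_union_right _ (Finset.mem_image_of_mem
        (fun s => (φ s (z s) - φ s0 (z s))⁻¹) hs)))
    have h6 : ((⟨φ s (z s), hφA s (Finset.mem_insert_of_mem hs) _ hzA⟩ : R) -
        ⟨φ s0 (z s), hφA s0 hs0' _ hzA⟩) * ⟨_, h5⟩ = 1 := by
      apply Subtype.ext
      exact mul_inv_cancel₀ (sub_ne_zero.2 (hz s hs))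
    have h7 := congrArg π h6
    rw [map_mul, map_one, h4, zero_mul] at h7
    exact zero_ne_one h7
  -- the differential
  obtain ⟨S', hS'1, hS'2, hS'3⟩ : ∃ S' : Finset (Place ℂ F), S'.card ≤ M ∧
      (∀ s (hs : s ∈ S), P s (Finset.mem_insert_of_mem hs) ∈ S') ∧ P s0 hs0' ∉ S' := by
    refine ⟨S.attach.image fun s : {s // s ∈ S} => P s.1 (Finset.mem_insert_of_mem s.2),
      Finset.card_image_le.trans (by rw [Finset.card_attach]; exact hS), fun s hs =>
        Finset.mem_image.2 ⟨⟨s, hs⟩, Finset.mem_attach _ _, rfl⟩, fun h => ?_⟩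
    obtain ⟨s, -, hs⟩ := Finset.mem_image.1 h
    exact hdiff s.1 s.2 hs
  obtain ⟨f, hf0, hfreg, hfS, hf1⟩ := exists_sep hD (P s0 hs0') S' hS'3 (fun b hb => by
      have h2 := hgon b hb
      omega)
  obtain ⟨lam, hlam⟩ := hg f hf0 hfreg
  have hgA : ∀ a, g a ∈ A := fun a => hGA _ (by
    rw [hG]
    exact Finset.mem_insert_of_mem (Finset.mem_union_left _ (Finset.mem_union_left _
      (Finset.mem_image_of_mem _ (Finset.mem_univ a)))))
  have hfA : f ∈ A := by
    rw [hlam]
    exact Subalgebra.sum_mem _ fun a _ => A.smul_mem (hgA a) _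
  have hval : ∀ s (hs : s ∈ S), π ⟨φ s f, hφA s (Finset.mem_insert_of_mem hs) f hfA⟩ = 0 := by
    intro s hs
    have h1 := hP s (Finset.mem_insert_of_mem hs) f hfA
    have h2 : Ge (P s (Finset.mem_insert_of_mem hs)) 1 f := by
      right
      have h3 := hfS _ (hS'2 s hs)
      have h4 := hgood s (Finset.mem_insert_of_mem hs)
      rw [h4, zero_add] at h3
      exact h3
    have h3 := h2.sub h1
    rw [sub_sub_cancel] at h3
    exact const_zero _ h3
  have hval0 : π ⟨φ s0 f, hφA s0 hs0' f hfA⟩ ≠ 0 := by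
    intro h
    have h1 := hP s0 hs0' f hfA
    rw [h, map_zero, sub_zero] at h1
    have h2 := h1.resolve_left hf0
    rw [hf1, hgood] at h2
    omega
  -- the relation
  have hrelf : c s0 * φ s0 f + ∑ s ∈ S, c s * φ s f = 0 := by
    have h1 : ∀ s, φ s f = ∑ a, algebraMap ℂ Ω (lam a) * φ s (g a) := by
      intro s
      rw [hlam, map_sum]
      refine Finset.sum_congr rfl fun a _ => ?_
      rw [Algebra.smul_def, map_mul, hφc]
    have h2 : c s0 * φ s0 f + ∑ s ∈ S, c s * φ s f =
        ∑ a, algebraMap ℂ Ω (lam a) * (c s0 * φ s0 (g a) + ∑ s ∈ S, c s * φ s (g a)) := by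
      simp only [mul_add, Finset.sum_add_distrib, Finset.mul_sum, h1]
      congr 1
      · refine Finset.sum_congr rfl fun a _ => ?_
        ring
      · rw [Finset.sum_comm]
        refine Finset.sum_congr rfl fun a _ => Finset.sum_congr rfl fun s _ => ?_
        ring
    rw [h2]
    refine Finset.sum_eq_zero fun a _ => ?_
    rw [hrel a, mul_zero]
  have hrelR : (⟨c s0, hcR s0 hs0'⟩ : R) * ⟨φ s0 f, hφA s0 hs0' f hfA⟩ +
      ∑ s ∈ S.attach, (⟨c s.1, hcR s.1 (Finset.mem_insert_of_mem s.2)⟩ : R) *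
        ⟨φ s.1 f, hφA s.1 (Finset.mem_insert_of_mem s.2) f hfA⟩ = 0 := by
    apply Subtype.ext
    rw [Subalgebra.coe_add, AddSubmonoidClass.coe_finset_sum]
    change c s0 * φ s0 f + ∑ s ∈ S.attach, c s.1 * φ s.1 f = 0
    rw [Finset.sum_attach S (fun s => c s * φ s f)]
    exact hrelf
  have h1 := congrArg π hrelR
  rw [map_add, map_sum, map_mul, map_zero, Finset.sum_eq_zero, add_zero] at h1
  · rcases mul_eq_zero.1 h1 with h2 | h2
    · have h5 : (c s0)⁻¹ ∈ R := hHR _ (by rw [hH]; exact Finset.mem_insert_self _ _)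
      have h6 : (⟨c s0, hcR s0 hs0'⟩ : R) * ⟨_, h5⟩ = 1 := by
        apply Subtype.ext
        exact mul_inv_cancel₀ hc0
      have h7 := congrArg π h6
      rw [map_mul, map_one, h2, zero_mul] at h7
      exact zero_ne_one h7
    · exact hval0 h2
  · intro s _
    rw [map_mul, hval s.1 s.2, mul_zero]

end

end Pool.Agent.K4H25.PC
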